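import Mathlib

set_option autoImplicit false

/-! The Prüfer group `D = ℚ_3 / ℤ_3` as a module over `ℤ_3`. -/

namespace Pool.Agent.Y444.TM

/-- `ℤ_3` inside `ℚ_3`. -/
noncomputable def zsub : Submodule ℤ_[3] ℚ_[3] := LinearMap.range (Algebra.linearMap ℤ_[3] ℚ_[3])

/-- The Prüfer `3`-group `ℚ_3 / ℤ_3`. -/
def D : Type := ℚ_[3] ⧸ zsub

noncomputable instance : AddCommGroup D := inferInstanceAs (AddCommGroup (ℚ_[3] ⧸ zsub))
noncomputable instance : Module ℤ_[3] D := inferInstanceAs (Module ℤ_[3] (ℚ_[3] ⧸ zsub))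

/-- The class of a rational `3`-adic number. -/
noncomputable def cls : ℚ_[3] →ₗ[ℤ_[3]] D := zsub.mkQ

theorem cls_surj (d : D) : ∃ q, cls q = d := Submodule.mkQ_surjective zsub d

theorem mem_zsub {q : ℚ_[3]} : q ∈ zsub ↔ ‖q‖ ≤ 1 := by
  unfold zsub
  rw [LinearMap.mem_range]
  constructor
  · rintro ⟨a, rfl⟩
    exact a.2
  · intro h
    exact ⟨⟨q, h⟩, rfl⟩

theorem cls_eq_zero {q : ℚ_[3]} : cls q = 0 ↔ ‖q‖ ≤ 1 := by
  rw [← mem_zsub]
  exact Submodule.Quotient.mk_eq_zero zsub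

/-- Every element is killed by a power of `3`. -/
theorem D_tors (d : D) : ∃ n : ℕ, (3 ^ n : ℕ) • d = 0 := by
  obtain ⟨q, rfl⟩ := cls_surj d
  obtain ⟨n, hn⟩ := pow_unbounded_of_one_lt ‖q‖ (by norm_num : (1 : ℝ) < 3)
  refine ⟨n, ?_⟩
  rw [← map_nsmul, cls_eq_zero, nsmul_eq_mul, norm_mul]
  have : ‖((3 ^ n : ℕ) : ℚ_[3])‖ = (3 : ℝ)⁻¹ ^ n := by
    rw [Nat.cast_pow, norm_pow]
    congr 1
    have := Padic.norm_p (p := 3)
    exact_mod_cast this
  rw [this, inv_pow, inv_mul_le_iff₀ (by positivity), mul_one]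
  exact hn.le

theorem norm_three_pow (n : ℕ) : ‖((3 ^ n : ℕ) : ℚ_[3])‖ = (3 : ℝ)⁻¹ ^ n := by
  rw [Nat.cast_pow, norm_pow]
  congr 1
  have := Padic.norm_p (p := 3)
  exact_mod_cast this

/-- On an element killed by `3 ^ n` a `3`-adic integer acts as a natural number below `3 ^ n`. -/
theorem smul_eq_nsmul (a : ℤ_[3]) (n : ℕ) (d : D) (hd : (3 ^ n : ℕ) • d = 0) :
    a • d = (a.appr n) • d := by
  have h := PadicInt.appr_spec n a
  rw [Ideal.mem_span_singleton] at h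
  obtain ⟨r, hr⟩ := h
  have h1 : a = (a.appr n : ℤ_[3]) + r * ((3 ^ n : ℕ) : ℤ_[3]) := by
    have : a - (a.appr n : ℤ_[3]) = r * ((3 ^ n : ℕ) : ℤ_[3]) := by
      rw [hr]; push_cast; ring
    rw [← this]; ring
  conv_lhs => rw [h1]
  rw [add_smul, mul_smul, Nat.cast_smul_eq_nsmul, Nat.cast_smul_eq_nsmul, hd, smul_zero, add_zero]

theorem smul_exists_nsmul (a : ℤ_[3]) (d : D) : ∃ k : ℕ, a • d = k • d := by
  obtain ⟨n, hn⟩ := D_tors d
  exact ⟨_, smul_eq_nsmul a n d hn⟩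

/-- The standard element of order `3`. -/
noncomputable def t : D := cls (3 : ℚ_[3])⁻¹

theorem t_ne : t ≠ 0 := by
  unfold t
  rw [Ne, cls_eq_zero, not_le, norm_inv]
  have : ‖(3 : ℚ_[3])‖ = (3 : ℝ)⁻¹ := by
    have := Padic.norm_p (p := 3)
    exact_mod_cast this
  rw [this]; norm_num

theorem t_three : t + t + t = 0 := by
  unfold t
  rw [← map_add, ← map_add, cls_eq_zero]
  have : (3 : ℚ_[3])⁻¹ + 3⁻¹ + 3⁻¹ = 1 := by norm_num
  rw [this]; simp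

theorem three_nsmul_eq (d : D) : 3 • d = d + d + d := by
  rw [show (3 : ℕ) = 1 + 1 + 1 from rfl, add_smul, add_smul, one_smul]

/-- Every nonzero `3`-adic integer `a` satisfies `a • y = t` for some `y`. -/
theorem exists_smul_eq_t {a : ℤ_[3]} (ha : a ≠ 0) : ∃ y : D, a • y = t := by
  refine ⟨cls ((a : ℚ_[3])⁻¹ * 3⁻¹), ?_⟩
  rw [← map_smul]
  unfold t
  congr 1
  rw [Algebra.smul_def]
  have h : (algebraMap ℤ_[3] ℚ_[3]) a = (a : ℚ_[3]) := rfl
  rw [h, mul_inv_cancel_left₀]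
  intro h0
  exact ha (Subtype.ext h0)

/-- Every nonzero element has a multiple equal to `t`. -/
theorem exists_nsmul_eq_t {d : D} (hd : d ≠ 0) : ∃ k : ℕ, k • d = t := by
  obtain ⟨q, rfl⟩ := cls_surj d
  rw [Ne, cls_eq_zero, not_le] at hd
  have hq0 : q ≠ 0 := by rintro rfl; simp at hd; linarith
  -- the norm of `q` is at least `3`
  have h3 : ‖(3 : ℚ_[3])‖ = (3 : ℝ)⁻¹ := by
    have := Padic.norm_p (p := 3)
    exact_mod_cast this
  have hq : 1 ≤ ‖3 * q‖ := by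
    rw [norm_mul, h3]
    obtain ⟨n, h1⟩ : ∃ n : ℤ, ‖q‖ = (3 : ℝ) ^ (-n) :=
      ⟨q.valuation, by exact_mod_cast Padic.norm_eq_zpow_neg_valuation hq0⟩
    rw [h1] at hd ⊢
    have h2 : (0 : ℤ) < -n := by
      by_contra hc
      push Not at hc
      have := zpow_le_one_of_nonpos₀ (by norm_num : (1 : ℝ) ≤ 3) hc
      linarith
    have h4 : (3 : ℝ) ^ (1 : ℤ) ≤ (3 : ℝ) ^ (-n) := zpow_le_zpow_right₀ (by norm_num) (by omega)
    rw [zpow_one] at h4
    rw [inv_mul_eq_div, le_div_iff₀ (by norm_num)]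
    linarith
  have hle : ‖(3 * q)⁻¹‖ ≤ 1 := by
    rw [norm_inv]
    exact inv_le_one_of_one_le₀ hq
  obtain ⟨k, hk⟩ := smul_exists_nsmul (⟨(3 * q)⁻¹, hle⟩ : ℤ_[3]) (cls q)
  refine ⟨k, ?_⟩
  rw [← hk, ← map_smul]
  unfold t
  congr 1
  rw [Algebra.smul_def]
  have h : (algebraMap ℤ_[3] ℚ_[3]) ⟨(3 * q)⁻¹, hle⟩ = (3 * q)⁻¹ := rfl
  rw [h, mul_inv]
  field_simp

/-- The elements of order `3` are `t` and `t + t`. -/
theorem order_three {s : D} (hs : s ≠ 0) (h3 : s + s + s = 0) : s = t ∨ s = t + t := by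
  obtain ⟨k, hk⟩ := exists_nsmul_eq_t hs
  have h3' : 3 • s = 0 := by rw [three_nsmul_eq, h3]
  have hk' : k • s = (k % 3) • s := by
    conv_lhs => rw [← Nat.div_add_mod k 3, add_smul, mul_comm, mul_smul, h3', smul_zero, zero_add]
  rw [hk'] at hk
  have hlt : k % 3 < 3 := Nat.mod_lt _ (by norm_num)
  interval_cases h : k % 3
  · exact absurd (by rw [← hk, zero_smul] : t = 0) t_ne
  · left; rw [← hk, one_smul]
  · right
    rw [← hk, two_smul]
    have : s + s + (s + s) = s + s + s + s := by abel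
    rw [this, h3, zero_add]

/-- The elements killed by `3 ^ n` form a finite set. -/
theorem D_finite (n : ℕ) : {d : D | (3 ^ n : ℕ) • d = 0}.Finite := by
  classical
  apply ((Finset.range (3 ^ n)).image fun k : ℕ => k • cls ((3 : ℚ_[3])⁻¹ ^ n)).finite_toSet.subset
  intro d hd
  obtain ⟨q, rfl⟩ := cls_surj d
  have hd' : (3 ^ n : ℕ) • cls q = 0 := hd
  rw [← map_nsmul, cls_eq_zero] at hd'
  rw [Finset.coe_image, Set.mem_image]
  set a : ℤ_[3] := ⟨(3 ^ n : ℕ) • q, hd'⟩ with ha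
  refine ⟨a.appr n, by simpa using a.appr_lt n, ?_⟩
  have h1 : (3 ^ n : ℕ) • cls ((3 : ℚ_[3])⁻¹ ^ n) = 0 := by
    rw [← map_nsmul, cls_eq_zero, nsmul_eq_mul]
    push_cast
    rw [← mul_pow]
    norm_num
  rw [← smul_eq_nsmul a n _ h1, ← map_smul]
  congr 1
  rw [Algebra.smul_def]
  have h : (algebraMap ℤ_[3] ℚ_[3]) a = (3 ^ n : ℕ) • q := rfl
  rw [h, nsmul_eq_mul]
  push_cast
  rw [mul_right_comm, ← mul_pow]
  norm_num

end Pool.Agent.Y444.TM
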