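import Pool.Agent.Y444.TM.Main

set_option autoImplicit false

/-! Total minimality, solvability, countable tightness and non-metrizability of `G`. -/

open Filter Topology

namespace Pool.Agent.Y444.TM

namespace G

theorem minimal_quotient (N : Subgroup G) [N.Normal] (σ : TopologicalSpace (G ⧸ N))
    (hσ : (QuotientGroup.instTopologicalSpace N : TopologicalSpace (G ⧸ N)) ≤ σ)
    (hg : @IsTopologicalGroup (G ⧸ N) σ _) (h2 : @T2Space (G ⧸ N) σ) :
    σ = QuotientGroup.instTopologicalSpace N := by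
  have hf0 : @Continuous G (G ⧸ N) _ (QuotientGroup.instTopologicalSpace N) (QuotientGroup.mk' N) :=
    QuotientGroup.continuous_mk
  have hf : @Continuous G (G ⧸ N) _ σ (QuotientGroup.mk' N) := continuous_le_rng hσ hf0
  have key : ∀ V : Set (G ⧸ N), V ∈ @nhds (G ⧸ N) (QuotientGroup.instTopologicalSpace N) 1 →
      V ∈ @nhds (G ⧸ N) σ 1 := by
    intro V hV
    have hU : (QuotientGroup.mk' N) ⁻¹' V ∈ 𝓝 (1 : G) := by
      apply (@Continuous.continuousAt _ _ _ (QuotientGroup.instTopologicalSpace N) _ _ hf0)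
      rw [map_one]
      exact hV
    obtain ⟨W, hW, hW'⟩ := @main_open (G ⧸ N) _ σ hg h2 (QuotientGroup.mk' N) hf _ hU
    apply Filter.mem_of_superset hW
    intro y hy
    obtain ⟨g, rfl⟩ := QuotientGroup.mk'_surjective N y
    obtain ⟨g', hg', hgg⟩ := hW' g hy
    rw [← hgg]
    exact hg'
  have hq : @IsTopologicalGroup (G ⧸ N) (QuotientGroup.instTopologicalSpace N) _ := inferInstance
  apply IsTopologicalGroup.ext hg hq
  apply le_antisymm key
  exact nhds_mono hσ

/-- `{c = 1}` -/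
noncomputable def K1 : Subgroup G where
  carrier := {g | g.c = 1}
  one_mem' := rfl
  mul_mem' := by
    intro a b ha hb
    show (a * b).c = 1
    rw [mul_c, show a.c = 1 from ha, show b.c = 1 from hb, one_mul]
  inv_mem' := by
    intro a ha
    show (a⁻¹).c = 1
    rw [inv_c, show a.c = 1 from ha, inv_one]

/-- `{v = 0, c = 1}` -/
noncomputable def K2 : Subgroup G where
  carrier := {g | IsN g}
  one_mem' := IsN.one
  mul_mem' := fun ha hb => IsN.mul ha hb
  inv_mem' := fun ha => IsN.inv ha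

theorem solvable : derivedSeries G 3 = ⊥ := by
  have h1 : derivedSeries G 1 ≤ K1 := by
    rw [derivedSeries_succ, Subgroup.commutator_le]
    intro a _ b _
    show (a * b * a⁻¹ * b⁻¹).c = 1
    rw [mul_c, mul_c, mul_c, inv_c, inv_c, mul_comm a.c b.c]
    group
  have h2 : derivedSeries G 2 ≤ K2 := by
    rw [derivedSeries_succ, Subgroup.commutator_le]
    intro a ha b hb
    have ha' : a.c = 1 := h1 ha
    have hb' : b.c = 1 := h1 hb
    refine ⟨?_, ?_⟩
    · rw [commutatorElement_def]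
      simp only [mul_v, mul_c, inv_v, inv_c, ha', hb', inv_one, one_smul, mul_one]
      abel
    · rw [commutatorElement_def, mul_c, mul_c, mul_c, inv_c, inv_c, ha', hb']
      simp
  rw [eq_bot_iff, derivedSeries_succ, Subgroup.commutator_le]
  intro a ha b hb
  have ha' : IsN a := h2 ha
  have hb' : IsN b := h2 hb
  rw [Subgroup.mem_bot, commutatorElement_def, ha'.inv_eq, hb'.inv_eq]
  apply IsN.ext (((ha'.mul hb').mul ha').mul hb') IsN.one
  intro b' z
  rw [hb'.mul_F', ha'.mul_F', hb'.mul_F', one_F]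
  have key : ∀ p q : ZMod 2, p + q + p + q = 0 := by decide
  exact key _ _

theorem tight (A : Set G) (x : G) (hx : x ∈ closure A) : ∃ B ⊆ A, B.Countable ∧ x ∈ closure B := by
  classical
  have h1 : ∀ P : Finset (ℤ_[3] × D), ∃ a ∈ A, ∀ p ∈ P, Th a p = Th x p := by
    intro P
    have hU : {y : G | ∀ p ∈ P, Th y p = Th x p} ∈ 𝓝 x := (mem_nhds_iff x _).2 ⟨P, fun y hy => hy⟩
    obtain ⟨a, ha1, ha2⟩ := mem_closure_iff_nhds.1 hx _ hU
    exact ⟨a, ha2, ha1⟩
  choose a haA haP using h1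
  let nxt : Set ℤ_[3] → Set ℤ_[3] := fun J =>
    J ∪ ⋃ P ∈ {P : Finset (ℤ_[3] × D) | (P : Set (ℤ_[3] × D)) ⊆ J ×ˢ Set.univ}, {b | (a P).F b ≠ 0}
  let J : ℕ → Set ℤ_[3] := fun n => Nat.rec ({0, 1} ∪ {b | x.F b ≠ 0}) (fun _ K => nxt K) n
  have hJs : ∀ n, J (n + 1) = nxt (J n) := fun n => rfl
  have hfs : ∀ K : Set ℤ_[3], K.Countable →
      {P : Finset (ℤ_[3] × D) | (P : Set (ℤ_[3] × D)) ⊆ K ×ˢ Set.univ}.Countable := by
    intro K hK
    have h2 : (K ×ˢ (Set.univ : Set D)).Countable := hK.prod Set.countable_univ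
    have h3 := Set.countable_ofPred_finite_subset h2
    have h4 := h3.preimage (Finset.coe_injective (α := ℤ_[3] × D))
    apply h4.mono
    intro P hP
    exact ⟨P.finite_toSet, hP⟩
  have hJc : ∀ n, (J n).Countable := by
    intro n
    induction n with
    | zero =>
      show (({0, 1} : Set ℤ_[3]) ∪ {b | x.F b ≠ 0}).Countable
      exact ((Set.toFinite _).countable).union x.hs
    | succ n ih =>
      rw [hJs]
      exact ih.union ((hfs _ ih).biUnion fun P _ => (a P).hs)
  have hJmono : ∀ n m, n ≤ m → J n ⊆ J m := by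
    intro n m hnm
    induction m, hnm using Nat.le_induction with
    | base => exact subset_rfl
    | succ m _ ih =>
      rw [hJs]
      exact ih.trans Set.subset_union_left
  set JJ : Set ℤ_[3] := ⋃ n, J n with hJJ
  have hJJc : JJ.Countable := Set.countable_iUnion hJc
  have hdir : ∀ P : Finset (ℤ_[3] × D), (∀ p ∈ P, p.1 ∈ JJ) → ∃ n, ∀ p ∈ P, p.1 ∈ J n := by
    intro P
    induction P using Finset.induction_on with
    | empty => exact fun _ => ⟨0, fun p hp => absurd hp (Finset.notMem_empty p)⟩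
    | insert q P hq ih =>
      intro hP
      obtain ⟨n, hn⟩ := ih fun p hp => hP p (Finset.mem_insert_of_mem hp)
      obtain ⟨m, hm⟩ := Set.mem_iUnion.1 (hP q (Finset.mem_insert_self _ _))
      refine ⟨n + m, fun p hp => ?_⟩
      rcases Finset.mem_insert.1 hp with rfl | hp
      · exact hJmono m _ (Nat.le_add_left _ _) hm
      · exact hJmono n _ (Nat.le_add_right _ _) (hn p hp)
  have hsupp : ∀ P : Finset (ℤ_[3] × D), (∀ p ∈ P, p.1 ∈ JJ) → ∀ b ∉ JJ, (a P).F b = 0 := by
    intro P hP b hb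
    obtain ⟨n, hn⟩ := hdir P hP
    by_contra hne
    apply hb
    rw [hJJ, Set.mem_iUnion]
    refine ⟨n + 1, ?_⟩
    rw [hJs]
    apply Set.mem_union_right
    rw [Set.mem_iUnion₂]
    exact ⟨P, fun p hp => ⟨hn p hp, Set.mem_univ _⟩, hne⟩
  refine ⟨a '' {P : Finset (ℤ_[3] × D) | (P : Set (ℤ_[3] × D)) ⊆ JJ ×ˢ Set.univ}, ?_,
    (hfs _ hJJc).image _, ?_⟩
  · rintro _ ⟨P, _, rfl⟩
    exact haA P
  · rw [mem_closure_iff_nhds]
    intro U hU
    obtain ⟨P, hP⟩ := (mem_nhds_iff x U).1 hU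
    set P1 : Finset (ℤ_[3] × D) := P.filter (fun p => p.1 ∈ JJ) ∪
      ({(0, 0), (1, 0)} ∪ P.image fun p => (0, p.2)) with hP1
    have h0J : (0 : ℤ_[3]) ∈ JJ := Set.mem_iUnion.2 ⟨0, Or.inl (Or.inl rfl)⟩
    have h1J : (1 : ℤ_[3]) ∈ JJ := Set.mem_iUnion.2 ⟨0, Or.inl (Or.inr rfl)⟩
    have hP1J : ∀ p ∈ P1, p.1 ∈ JJ := by
      intro p hp
      rw [hP1, Finset.mem_union, Finset.mem_union] at hp
      rcases hp with hp | hp | hp
      · exact (Finset.mem_filter.1 hp).2
      · rcases Finset.mem_insert.1 hp with rfl | hp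
        · exact h0J
        · rw [Finset.mem_singleton.1 hp]; exact h1J
      · obtain ⟨q, _, rfl⟩ := Finset.mem_image.1 hp
        exact h0J
    refine ⟨a P1, hP _ ?_, ⟨P1, fun p hp => ⟨hP1J p hp, Set.mem_univ _⟩, rfl⟩⟩
    have e0 := (Th_eq_iff _ _ _).1 (haP P1 (0, 0) (by simp [hP1]))
    have e1 := (Th_eq_iff _ _ _).1 (haP P1 (1, 0) (by simp [hP1]))
    have hv : (a P1).v = x.v := by
      have f0 := e0.1
      have f1 := e1.1
      unfold G.act at f0 f1
      dsimp only at f0 f1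
      rw [smul_zero, smul_zero, zero_add, zero_add, psi_apply, psi_apply] at f0 f1
      simp only [zero_smul, add_zero, one_smul] at f0 f1
      apply Prod.ext
      · exact f0
      · rw [f0] at f1
        exact add_left_cancel f1
    intro p hp
    by_cases hpJ : p.1 ∈ JJ
    · apply haP
      rw [hP1]
      exact Finset.mem_union_left _ (Finset.mem_filter.2 ⟨hp, hpJ⟩)
    · have e2 := (Th_eq_iff _ _ _).1 (haP P1 (0, p.2) (by
        rw [hP1]
        exact Finset.mem_union_right _ (Finset.mem_union_right _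
          (Finset.mem_image_of_mem (fun p : ℤ_[3] × D => ((0 : ℤ_[3]), p.2)) hp))))
      have hc : (a P1).c • p.2 = x.c • p.2 := by
        have f2 := e2.1
        unfold G.act at f2
        dsimp only at f2
        rw [hv] at f2
        exact add_right_cancel f2
      rw [Th_eq_iff]
      refine ⟨?_, ?_⟩
      · unfold G.act
        rw [hv, hc]
      · rw [hsupp P1 hP1J p.1 hpJ]
        have : x.F p.1 = 0 := by
          by_contra hne
          exact hpJ (Set.mem_iUnion.2 ⟨0, Or.inr hne⟩)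
        rw [this]

theorem uncountable_Z3 : ¬ (Set.univ : Set ℤ_[3]).Countable := by
  intro h
  have h1 : (Set.univ : Set ℚ_[3]).Countable := by
    have : (Set.univ : Set ℚ_[3]) ⊆ ⋃ n : ℕ, (fun a : ℤ_[3] => (a : ℚ_[3]) / 3 ^ n) '' Set.univ := by
      intro q _
      obtain ⟨n, hn⟩ := pow_unbounded_of_one_lt ‖q‖ (by norm_num : (1 : ℝ) < 3)
      have hle : ‖(3 : ℚ_[3]) ^ n * q‖ ≤ 1 := by
        rw [norm_mul]
        have := norm_three_pow n
        push_cast at this
        rw [this, inv_pow, inv_mul_le_iff₀ (by positivity), mul_one]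
        exact hn.le
      refine Set.mem_iUnion.2 ⟨n, ⟨⟨(3 : ℚ_[3]) ^ n * q, hle⟩, Set.mem_univ _, ?_⟩⟩
      show (3 : ℚ_[3]) ^ n * q / 3 ^ n = q
      field_simp
    exact (Set.countable_iUnion fun n => h.image _).mono this
  have h2 := continuum_le_cardinal_of_nontriviallyNormedField ℚ_[3]
  have h3 : Cardinal.mk ℚ_[3] ≤ Cardinal.aleph0 := by
    rw [Cardinal.mk_le_aleph0_iff]
    exact Set.countable_univ_iff.1 h1
  exact absurd (h2.trans h3) (not_le.2 Cardinal.aleph0_lt_continuum)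

theorem not_metrizable : ¬ TopologicalSpace.MetrizableSpace G := by
  classical
  intro hm
  let _ : MetricSpace G := TopologicalSpace.metrizableSpaceMetric G
  obtain ⟨U, hU⟩ := (𝓝 (1 : G)).exists_antitone_basis
  have h1 : ∀ n, ∃ P : Finset (ℤ_[3] × D), ∀ y : G, (∀ p ∈ P, Th y p = Th 1 p) → y ∈ U n := by
    intro n
    exact (mem_nhds_iff 1 _).1 (hU.1.mem_of_mem trivial)
  choose P hP using h1
  have hc : (⋃ n, ((P n).image Prod.fst : Set ℤ_[3])).Countable :=
    Set.countable_iUnion fun n => (Finset.countable_toSet _)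
  obtain ⟨b, hb⟩ : ∃ b, b ∉ ⋃ n, ((P n).image Prod.fst : Set ℤ_[3]) := by
    by_contra hcon
    push Not at hcon
    apply uncountable_Z3
    exact hc.mono fun b _ => hcon b
  have hmem : ∀ n, gz b 0 ∈ U n := by
    intro n
    apply hP n
    intro p hp
    rw [IsN.one.Th_iff (gz_isN b 0), one_F]
    apply gz_F_ne
    rintro rfl
    apply hb
    exact Set.mem_iUnion.2 ⟨n, Finset.mem_coe.2 (Finset.mem_image_of_mem _ hp)⟩
  have h2 : gz b 0 = 1 := by
    by_contra hne
    have : {x : G | x ≠ gz b 0} ∈ 𝓝 (1 : G) := isOpen_ne.mem_nhds (Ne.symm hne)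
    obtain ⟨n, _, hn⟩ := hU.1.mem_iff.1 this
    exact hn (hmem n) rfl
  have h3 := congrArg (fun g : G => g.F b 0) h2
  simp only [gz_F_same, one_F, gfun_self] at h3
  exact one_ne_zero h3

end G

end Pool.Agent.Y444.TM
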