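import Pool.Agent.Y444.TM.D

set_option autoImplicit false

/-! The group `G` and its topology. -/

open Filter Topology

namespace Pool.Agent.Y444.TM

/-- `ψ b (x, y) = x + b y`. -/
noncomputable def psi (b : ℤ_[3]) : D × D →+ D :=
  (AddMonoidHom.fst D D) + (DistribSMul.toAddMonoidHom D b).comp (AddMonoidHom.snd D D)

theorem psi_apply (b : ℤ_[3]) (v : D × D) : psi b v = v.1 + b • v.2 := rfl

theorem psi_smul (b : ℤ_[3]) (c : ℤ_[3]ˣ) (v : D × D) : psi b (c • v) = c • psi b v := by
  rw [psi_apply, psi_apply, smul_add]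
  congr 1
  show b • ((c : ℤ_[3]) • v.2) = (c : ℤ_[3]) • (b • v.2)
  rw [smul_comm]

/-- The counterexample group. -/
structure G where
  F : ℤ_[3] → D → ZMod 2
  v : D × D
  c : ℤ_[3]ˣ
  hN : ∀ b z s, s ≠ 0 → s + s + s = 0 → F b z + F b (z + s) + F b (z + s + s) = 0
  hs : {b | F b ≠ 0}.Countable

namespace G

theorem ext' {g h : G} (h1 : ∀ b z, g.F b z = h.F b z) (h2 : g.v = h.v) (h3 : g.c = h.c) :
    g = h := by
  cases g; cases h
  simp only [mk.injEq] at *
  exact ⟨funext fun b => funext fun z => h1 b z, h2, h3⟩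

/-- The affine action of `g` on the coordinate `b`. -/
noncomputable def act (g : G) (b : ℤ_[3]) (z : D) : D := g.c • z + psi b g.v

noncomputable instance : Mul G where
  mul g h :=
    { F := fun b z => g.F b (h.act b z) + h.F b z
      v := g.v + g.c • h.v
      c := g.c * h.c
      hN := by
        intro b z s hs h3
        have hs' : h.c • s ≠ 0 := by
          intro h0
          apply hs
          have := congrArg (fun x => h.c⁻¹ • x) h0
          simpa using this
        have h3' : h.c • s + h.c • s + h.c • s = 0 := by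
          rw [← smul_add, ← smul_add, h3, smul_zero]
        have e1 := g.hN b (h.act b z) (h.c • s) hs' h3'
        have e2 := h.hN b z s hs h3
        have a1 : h.act b (z + s) = h.act b z + h.c • s := by
          unfold act; rw [smul_add]; abel
        have a2 : h.act b (z + s + s) = h.act b z + h.c • s + h.c • s := by
          unfold act; rw [smul_add, smul_add]; abel
        rw [a1, a2]
        linear_combination e1 + e2
      hs := by
        refine (g.hs.union h.hs).mono ?_
        intro b hb
        by_contra hc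
        simp only [Set.mem_union, Set.mem_ofPred_eq, not_or, not_not] at hc
        apply hb
        funext z
        rw [hc.1, hc.2]; simp }

noncomputable instance : One G where
  one :=
    { F := fun _ _ => 0
      v := 0
      c := 1
      hN := by intros; simp
      hs := by
        have : {b : ℤ_[3] | (fun _ : D => (0 : ZMod 2)) ≠ 0} = ∅ := by
          ext b; simp; rfl
        rw [this]; exact Set.countable_empty }

noncomputable instance : Inv G where
  inv g :=
    { F := fun b z => - g.F b (g.c⁻¹ • (z - psi b g.v))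
      v := - (g.c⁻¹ • g.v)
      c := g.c⁻¹
      hN := by
        intro b z s hs h3
        have hs' : g.c⁻¹ • s ≠ 0 := by
          intro h0
          apply hs
          have := congrArg (fun x => g.c • x) h0
          simpa using this
        have h3' : g.c⁻¹ • s + g.c⁻¹ • s + g.c⁻¹ • s = 0 := by
          rw [← smul_add, ← smul_add, h3, smul_zero]
        have e1 := g.hN b (g.c⁻¹ • (z - psi b g.v)) (g.c⁻¹ • s) hs' h3'
        have a1 : g.c⁻¹ • (z + s - psi b g.v) = g.c⁻¹ • (z - psi b g.v) + g.c⁻¹ • s := by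
          rw [← smul_add]; congr 1; abel
        have a2 : g.c⁻¹ • (z + s + s - psi b g.v) =
            g.c⁻¹ • (z - psi b g.v) + g.c⁻¹ • s + g.c⁻¹ • s := by
          rw [← smul_add, ← smul_add]; congr 1; abel
        rw [a1, a2]
        linear_combination - e1
      hs := by
        refine g.hs.mono ?_
        intro b hb
        by_contra hc
        simp only [Set.mem_ofPred_eq, not_not] at hc
        apply hb
        funext z
        rw [hc]; simp }

@[simp] theorem mul_F (g h : G) (b : ℤ_[3]) (z : D) :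
    (g * h).F b z = g.F b (h.act b z) + h.F b z := rfl
@[simp] theorem mul_v (g h : G) : (g * h).v = g.v + g.c • h.v := rfl
@[simp] theorem mul_c (g h : G) : (g * h).c = g.c * h.c := rfl
@[simp] theorem one_F (b : ℤ_[3]) (z : D) : (1 : G).F b z = 0 := rfl
@[simp] theorem one_v : (1 : G).v = 0 := rfl
@[simp] theorem one_c : (1 : G).c = 1 := rfl
@[simp] theorem inv_F (g : G) (b : ℤ_[3]) (z : D) :
    (g⁻¹).F b z = - g.F b (g.c⁻¹ • (z - psi b g.v)) := rfl
@[simp] theorem inv_v (g : G) : (g⁻¹).v = - (g.c⁻¹ • g.v) := rfl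
@[simp] theorem inv_c (g : G) : (g⁻¹).c = g.c⁻¹ := rfl

theorem act_mul (g h : G) (b : ℤ_[3]) (z : D) : (g * h).act b z = g.act b (h.act b z) := by
  unfold act
  rw [mul_c, mul_v, map_add, psi_smul, smul_add, mul_smul]
  abel

theorem act_one (b : ℤ_[3]) (z : D) : (1 : G).act b z = z := by
  unfold act; simp

theorem act_inv_act (g : G) (b : ℤ_[3]) (z : D) : g.c⁻¹ • (g.act b z - psi b g.v) = z := by
  unfold act
  rw [add_sub_cancel_right, inv_smul_smul]

theorem act_act_inv (g : G) (b : ℤ_[3]) (z : D) : g.act b (g.c⁻¹ • (z - psi b g.v)) = z := by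
  unfold act
  rw [smul_inv_smul, sub_add_cancel]

theorem act_inv (g : G) (b : ℤ_[3]) (z : D) : g⁻¹.act b z = g.c⁻¹ • (z - psi b g.v) := by
  unfold act
  rw [inv_c, inv_v, map_neg, psi_smul, smul_sub]
  abel

noncomputable instance : Group G where
  mul_assoc g h k := by
    apply ext'
    · intro b z
      rw [mul_F, mul_F, mul_F, mul_F, act_mul, add_assoc]
    · rw [mul_v, mul_v, mul_v, mul_v, mul_c, smul_add, mul_smul, add_assoc]
    · rw [mul_c, mul_c, mul_c, mul_c, mul_assoc]
  one_mul g := by
    apply ext'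
    · intro b z; rw [mul_F, one_F, zero_add]
    · rw [mul_v, one_v, one_c, one_smul, zero_add]
    · rw [mul_c, one_c, one_mul]
  mul_one g := by
    apply ext'
    · intro b z; rw [mul_F, one_F, add_zero, act_one]
    · rw [mul_v, one_v, smul_zero, add_zero]
    · rw [mul_c, one_c, mul_one]
  inv_mul_cancel g := by
    apply ext'
    · intro b z
      rw [mul_F, inv_F, act_inv_act, one_F, neg_add_cancel]
    · rw [mul_v, inv_v, inv_c, one_v, neg_add_cancel]
    · rw [mul_c, inv_c, one_c, inv_mul_cancel]

/-- A discrete copy of `D × ZMod 2`. -/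
def Y : Type := D × ZMod 2

instance : TopologicalSpace Y := ⊥
instance : DiscreteTopology Y := ⟨rfl⟩

/-- The coordinate maps of `G`. -/
noncomputable def Th (g : G) (p : ℤ_[3] × D) : Y := (g.act p.1 p.2, g.F p.1 p.2)

theorem Th_inj : Function.Injective Th := by
  intro g h hgh
  have key : ∀ b z, g.act b z = h.act b z ∧ g.F b z = h.F b z := by
    intro b z
    have := congrFun hgh (b, z)
    exact ⟨congrArg Prod.fst this, congrArg Prod.snd this⟩
  have h0 : ∀ b, psi b g.v = psi b h.v := by
    intro b
    have := (key b 0).1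
    unfold act at this
    simpa using this
  have hv : g.v = h.v := by
    have e0 := h0 0
    have e1 := h0 1
    rw [psi_apply, psi_apply] at e0 e1
    simp only [zero_smul, add_zero, one_smul] at e0 e1
    ext
    · exact e0
    · rw [e0] at e1
      exact add_left_cancel e1
  have hc : ∀ z : D, g.c • z = h.c • z := by
    intro z
    have := (key 0 z).1
    unfold act at this
    rw [hv] at this
    exact add_right_cancel this
  apply ext'
  · intro b z; exact (key b z).2
  · exact hv
  · by_contra hne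
    have hne' : (g.c : ℤ_[3]) - h.c ≠ 0 := by
      intro h0
      apply hne
      apply Units.ext
      exact sub_eq_zero.1 h0
    obtain ⟨y, hy⟩ := exists_smul_eq_t hne'
    have := hc y
    rw [sub_smul] at hy
    have h2 : (g.c : ℤ_[3]) • y = (h.c : ℤ_[3]) • y := this
    rw [h2, sub_self] at hy
    exact t_ne hy.symm

noncomputable instance : TopologicalSpace G := TopologicalSpace.induced Th Pi.topologicalSpace

theorem mem_nhds_iff (x : G) (U : Set G) :
    U ∈ 𝓝 x ↔ ∃ P : Finset (ℤ_[3] × D), ∀ y : G, (∀ p ∈ P, Th y p = Th x p) → y ∈ U := by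
  rw [nhds_induced, Filter.mem_comap]
  constructor
  · rintro ⟨u, hu, hU⟩
    rw [nhds_pi, Filter.mem_pi] at hu
    obtain ⟨I, hI, s, hs, hsu⟩ := hu
    refine ⟨hI.toFinset, fun y hy => hU (hsu ?_)⟩
    intro p hp
    rw [hy p (hI.mem_toFinset.2 hp)]
    exact mem_of_mem_nhds (hs p)
  · rintro ⟨P, hP⟩
    refine ⟨(P : Set (ℤ_[3] × D)).pi fun p => {Th x p}, ?_, ?_⟩
    · apply set_pi_mem_nhds P.finite_toSet
      intro p _
      exact (isOpen_discrete _).mem_nhds rfl
    · intro y hy
      exact hP y fun p hp => hy p hp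

instance : T2Space G := by
  refine ⟨fun x y hxy => ?_⟩
  have : Th x ≠ Th y := fun h => hxy (Th_inj h)
  obtain ⟨p, hp⟩ := Function.ne_iff.1 this
  have hc0 : Continuous Th := continuous_induced_dom
  have hc : Continuous fun g : G => Th g p := (continuous_apply p).comp hc0
  refine ⟨(fun g : G => Th g p) ⁻¹' {Th x p}, (fun g : G => Th g p) ⁻¹' {Th y p},
    (isOpen_discrete _).preimage hc, (isOpen_discrete _).preimage hc, rfl, rfl, ?_⟩
  rw [Set.disjoint_left]
  intro g hg1 hg2
  exact hp (hg1.symm.trans hg2)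

theorem Th_eq_iff (x y : G) (p : ℤ_[3] × D) :
    Th y p = Th x p ↔ y.act p.1 p.2 = x.act p.1 p.2 ∧ y.F p.1 p.2 = x.F p.1 p.2 := by
  constructor
  · intro h
    exact ⟨congrArg Prod.fst h, congrArg Prod.snd h⟩
  · rintro ⟨h1, h2⟩
    exact Prod.ext h1 h2

instance : IsTopologicalGroup G where
  continuous_mul := by
    classical
    rw [continuous_iff_continuousAt]
    rintro ⟨g, h⟩
    intro U hU
    rw [mem_nhds_iff] at hU
    obtain ⟨P, hP⟩ := hU
    rw [Filter.mem_map, nhds_prod_eq, Filter.mem_prod_iff]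
    refine ⟨{y | ∀ p ∈ P, Th y (p.1, h.act p.1 p.2) = Th g (p.1, h.act p.1 p.2)}, ?_,
      {y | ∀ p ∈ P, Th y p = Th h p}, ?_, ?_⟩
    · rw [mem_nhds_iff]
      refine ⟨P.image fun p => (p.1, h.act p.1 p.2), fun y hy p hp => ?_⟩
      exact hy _ (Finset.mem_image_of_mem _ hp)
    · rw [mem_nhds_iff]
      exact ⟨P, fun y hy => hy⟩
    · rintro ⟨a, b⟩ ⟨ha, hb⟩
      apply hP
      intro p hp
      have h1 := (Th_eq_iff _ _ _).1 (ha p hp)
      have h2 := (Th_eq_iff _ _ _).1 (hb p hp)
      rw [Th_eq_iff]
      dsimp only at h1 h2 ⊢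
      rw [act_mul, act_mul, mul_F, mul_F, h2.1, h2.2, h1.1, h1.2]
      exact ⟨rfl, rfl⟩
  continuous_inv := by
    classical
    rw [continuous_iff_continuousAt]
    intro g U hU
    rw [mem_nhds_iff] at hU
    obtain ⟨P, hP⟩ := hU
    rw [Filter.mem_map, mem_nhds_iff]
    refine ⟨P.image fun p => (p.1, g.c⁻¹ • (p.2 - psi p.1 g.v)), fun y hy => hP _ fun p hp => ?_⟩
    have h1 := (Th_eq_iff _ _ _).1 (hy _ (Finset.mem_image_of_mem _ hp))
    dsimp only at h1
    rw [act_act_inv] at h1
    rw [Th_eq_iff, act_inv, act_inv, inv_F, inv_F]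
    have h2 : y.c⁻¹ • (p.2 - psi p.1 y.v) = g.c⁻¹ • (p.2 - psi p.1 g.v) := by
      conv_lhs => rw [← h1.1]
      rw [act_inv_act]
    rw [h2, h1.2]
    exact ⟨rfl, rfl⟩

end G

end Pool.Agent.Y444.TM
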