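import Pool.Agent.Y444.TM.Grp

set_option autoImplicit false

/-! Closed invariant subgroups of the normal subgroup `N`. -/

open Filter Topology

namespace Pool.Agent.Y444.TM

namespace G

/-- Elements of the normal subgroup `N`. -/
def IsN (g : G) : Prop := g.v = 0 ∧ g.c = 1

theorem IsN.act {g : G} (hg : IsN g) (b : ℤ_[3]) (z : D) : g.act b z = z := by
  unfold G.act
  rw [hg.1, hg.2, map_zero, one_smul, add_zero]

theorem IsN.one : IsN 1 := ⟨rfl, rfl⟩

theorem IsN.mul {g h : G} (hg : IsN g) (hh : IsN h) : IsN (g * h) := by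
  refine ⟨?_, ?_⟩
  · rw [mul_v, hg.1, hh.1, smul_zero, add_zero]
  · rw [mul_c, hg.2, hh.2, one_mul]

theorem IsN.inv {g : G} (hg : IsN g) : IsN g⁻¹ := by
  refine ⟨?_, ?_⟩
  · rw [inv_v, hg.1, smul_zero, neg_zero]
  · rw [inv_c, hg.2, inv_one]

theorem IsN.mul_F' {g h : G} (hh : IsN h) (b : ℤ_[3]) (z : D) :
    (g * h).F b z = g.F b z + h.F b z := by
  rw [mul_F, hh.act]

theorem IsN.ext {g h : G} (hg : IsN g) (hh : IsN h) (h1 : ∀ b z, g.F b z = h.F b z) : g = h :=
  ext' h1 (hg.1.trans hh.1.symm) (hg.2.trans hh.2.symm)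

theorem IsN.mul_self {g : G} (hg : IsN g) : g * g = 1 := by
  apply IsN.ext (hg.mul hg) IsN.one
  intro b z
  rw [hg.mul_F', one_F]
  exact CharTwo.add_self_eq_zero _

theorem IsN.inv_eq {g : G} (hg : IsN g) : g⁻¹ = g := by
  rw [inv_eq_iff_mul_eq_one]
  exact hg.mul_self

theorem IsN.conj {n : G} (hn : IsN n) (k : G) : IsN (k⁻¹ * n * k) := by
  refine ⟨?_, ?_⟩
  · rw [mul_v, mul_v, mul_c, inv_v, inv_c, hn.1, hn.2, smul_zero, add_zero, mul_one, neg_add_cancel]
  · rw [mul_c, mul_c, inv_c, hn.2, mul_one, inv_mul_cancel]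

theorem IsN.conj_F {n : G} (hn : IsN n) (k : G) (b : ℤ_[3]) (z : D) :
    (k⁻¹ * n * k).F b z = n.F b (k.act b z) := by
  have h1 : (k * (k⁻¹ * n * k)).F b z = (n * k).F b z := by
    congr 1; group
  rw [(hn.conj k).mul_F', mul_F, add_comm] at h1
  exact add_right_cancel h1

/-- The element of `V = D × D`. -/
noncomputable def vel (u : D × D) : G where
  F := fun _ _ => 0
  v := u
  c := 1
  hN := by intros; simp
  hs := by
    have : {b : ℤ_[3] | (fun _ : D => (0 : ZMod 2)) ≠ 0} = ∅ := by
      ext b; simp; rfl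
    rw [this]; exact Set.countable_empty

/-- The element of `C = ℤ_3ˣ`. -/
noncomputable def cel (c : ℤ_[3]ˣ) : G where
  F := fun _ _ => 0
  v := 0
  c := c
  hN := by intros; simp
  hs := by
    have : {b : ℤ_[3] | (fun _ : D => (0 : ZMod 2)) ≠ 0} = ∅ := by
      ext b; simp; rfl
    rw [this]; exact Set.countable_empty

@[simp] theorem vel_F (u : D × D) (b : ℤ_[3]) (z : D) : (vel u).F b z = 0 := rfl
@[simp] theorem vel_v (u : D × D) : (vel u).v = u := rfl
@[simp] theorem vel_c (u : D × D) : (vel u).c = 1 := rfl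
@[simp] theorem cel_F (c : ℤ_[3]ˣ) (b : ℤ_[3]) (z : D) : (cel c).F b z = 0 := rfl
@[simp] theorem cel_v (c : ℤ_[3]ˣ) : (cel c).v = 0 := rfl
@[simp] theorem cel_c (c : ℤ_[3]ˣ) : (cel c).c = c := rfl

theorem vel_act (u : D × D) (b : ℤ_[3]) (z : D) : (vel u).act b z = z + psi b u := by
  unfold G.act; simp
theorem cel_act (c : ℤ_[3]ˣ) (b : ℤ_[3]) (z : D) : (cel c).act b z = c • z := by
  unfold G.act; simp

open Classical in
/-- The function `δ_z + δ_{z+t}`. -/
noncomputable def gfun (z y : D) : ZMod 2 := (if y = z then 1 else 0) + (if y = z + t then 1 else 0)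

theorem gfun_sum (z y s : D) (hs : s ≠ 0) (h3 : s + s + s = 0) :
    gfun z y + gfun z (y + s) + gfun z (y + s + s) = 0 := by
  classical
  have ht3 := t_three
  have key : ∀ w : D, z = w - t - t ↔ z = w + t := by
    intro w
    have : w - t - t = w + t := by
      rw [sub_sub, sub_eq_iff_eq_add, add_assoc, ← add_assoc t t t, ht3, add_zero]
    rw [this]
  unfold gfun
  rcases order_three hs h3 with rfl | rfl
  · have a1 : (y + t = z) ↔ (z = y + t) := eq_comm
    have a2 : (y + t = z + t) ↔ (y = z) := add_left_inj t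
    have a3 : (y + t + t = z) ↔ (y = z + t) := by
      constructor
      · intro h; rw [← h, add_assoc, add_assoc, ← add_assoc t t t, ht3, add_zero]
      · intro h; rw [h, add_assoc, add_assoc, ← add_assoc t t t, ht3, add_zero]
    have a4 : (y + t + t = z + t) ↔ (z = y + t) := by rw [add_left_inj, eq_comm]
    simp only [a1, a2, a3, a4]
    generalize (if y = z then (1 : ZMod 2) else 0) = p
    generalize (if y = z + t then (1 : ZMod 2) else 0) = q
    generalize (if z = y + t then (1 : ZMod 2) else 0) = r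
    revert p q r; decide
  · have e4 : t + t + (t + t) = t := by
      have : t + t + (t + t) = t + t + t + t := by abel
      rw [this, ht3, zero_add]
    have a1 : (y + (t + t) = z) ↔ (y = z + t) := by
      constructor
      · intro h; rw [← h, add_assoc, ht3, add_zero]
      · intro h; rw [h, add_assoc, ← add_assoc t t t, ht3, add_zero]
    have a2 : (y + (t + t) = z + t) ↔ (z = y + t) := by
      rw [← add_assoc, add_left_inj, eq_comm]
    have a3 : (y + (t + t) + (t + t) = z) ↔ (z = y + t) := by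
      rw [add_assoc, e4, eq_comm]
    have a4 : (y + (t + t) + (t + t) = z + t) ↔ (y = z) := by
      rw [add_assoc, e4, add_left_inj]
    simp only [a1, a2, a3, a4]
    generalize (if y = z then (1 : ZMod 2) else 0) = p
    generalize (if y = z + t then (1 : ZMod 2) else 0) = q
    generalize (if z = y + t then (1 : ZMod 2) else 0) = r
    revert p q r; decide

open Classical in
/-- The function `δ_z + δ_{z+t}` on the coordinate `b`. -/
noncomputable def gz (b : ℤ_[3]) (z : D) : G where
  F := fun b' y => if b' = b then gfun z y else 0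
  v := 0
  c := 1
  hN := by
    intro b' y s hs h3
    by_cases h : b' = b
    · simp only [h, if_true]; exact gfun_sum z y s hs h3
    · simp [h]
  hs := by
    apply (Set.countable_singleton b).mono
    intro b' hb'
    by_contra hc
    apply hb'
    funext y
    have hc' : ¬ b' = b := hc
    simp [hc']

theorem gz_isN (b : ℤ_[3]) (z : D) : IsN (gz b z) := ⟨rfl, rfl⟩

theorem gz_F_same (b : ℤ_[3]) (z y : D) : (gz b z).F b y = gfun z y := by
  classical
  show (if b = b then gfun z y else 0) = _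
  rw [if_pos rfl]

theorem gz_F_ne {b b' : ℤ_[3]} (h : b' ≠ b) (z y : D) : (gz b z).F b' y = 0 := by
  classical
  show (if b' = b then gfun z y else 0) = _
  rw [if_neg h]

/-- The unit `1 + 3 j`. -/
theorem exists_unit (j : ℕ) : ∃ c : ℤ_[3]ˣ, (c : ℤ_[3]) = ((1 + 3 * j : ℕ) : ℤ_[3]) := by
  have h : IsUnit ((1 + 3 * j : ℕ) : ℤ_[3]) := by
    rw [PadicInt.isUnit_iff, PadicInt.norm_natCast_eq_one_iff]
    exact (Nat.Prime.coprime_iff_not_dvd Nat.prime_three).2 (by omega)
  obtain ⟨c, hc⟩ := h
  exact ⟨c, hc⟩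

/-- The unit `1 + 3 j`. -/
noncomputable def cj (j : ℕ) : ℤ_[3]ˣ := (exists_unit j).choose

theorem cj_smul (j : ℕ) (z : D) : cj j • z = z + j • (3 • z) := by
  have h := (exists_unit j).choose_spec
  show ((cj j : ℤ_[3]ˣ) : ℤ_[3]) • z = _
  unfold cj
  rw [h, Nat.cast_smul_eq_nsmul, add_smul, one_smul, mul_comm, mul_smul]

theorem sum_periodic {g : ℕ → ZMod 2} {N : ℕ} (hg : ∀ j, g (j + N) = g j) (r : ℕ) :
    ∑ j ∈ Finset.range N, g (j + r) = ∑ j ∈ Finset.range N, g j := by
  induction r with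
  | zero => rfl
  | succ r ih =>
    rw [← ih]
    have h1 := Finset.sum_range_succ (fun j => g (j + r)) N
    have h2 := Finset.sum_range_succ' (fun j => g (j + r)) N
    rw [h1] at h2
    have h3 : g (N + r) = g (0 + r) := by
      rw [add_comm N r, hg, zero_add]
    rw [h3] at h2
    have h4 := add_right_cancel h2
    rw [h4]
    apply Finset.sum_congr rfl
    intro j _
    congr 1
    ring

/-- The zero sum condition in the form used for averaging. -/
theorem sum_zero (g : G) (b : ℤ_[3]) (z : D) (n : ℕ) (hz : (3 ^ n : ℕ) • z = 0) (h3 : 3 • z ≠ 0) :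
    ∑ j ∈ Finset.range (3 ^ n), g.F b (z + j • (3 • z)) = 0 := by
  set w := 3 • z with hw
  have hNw : (3 ^ n : ℕ) • w = 0 := by
    rw [hw, smul_comm, hz, smul_zero]
  obtain ⟨r, hr⟩ := exists_nsmul_eq_t h3
  have hper : ∀ j, g.F b (z + (j + 3 ^ n) • w) = g.F b (z + j • w) := by
    intro j
    rw [add_smul, hNw, add_zero]
  have h1 : ∑ j ∈ Finset.range (3 ^ n), g.F b (z + j • w + t) =
      ∑ j ∈ Finset.range (3 ^ n), g.F b (z + j • w) := by
    refine Eq.trans ?_ (sum_periodic hper r)
    apply Finset.sum_congr rfl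
    intro j _
    rw [add_smul, hr, add_assoc]
  have h2 : ∑ j ∈ Finset.range (3 ^ n), g.F b (z + j • w + t + t) =
      ∑ j ∈ Finset.range (3 ^ n), g.F b (z + j • w) := by
    refine Eq.trans ?_ (sum_periodic hper (r + r))
    apply Finset.sum_congr rfl
    intro j _
    rw [add_smul, add_smul, hr, add_assoc, add_assoc]
  have h0 : ∑ j ∈ Finset.range (3 ^ n), (g.F b (z + j • w) + g.F b (z + j • w + t) +
      g.F b (z + j • w + t + t)) = 0 :=
    Finset.sum_eq_zero fun j _ => g.hN b _ t t_ne t_three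
  rw [Finset.sum_add_distrib, Finset.sum_add_distrib, h1, h2] at h0
  generalize (∑ j ∈ Finset.range (3 ^ n), g.F b (z + j • w)) = x at h0
  revert x
  decide

theorem three_pow_nsmul (n : ℕ) (x : ZMod 2) : (3 ^ n : ℕ) • x = x := by
  have h : ∀ x : ZMod 2, (3 : ℕ) • x = x := by decide
  induction n with
  | zero => simp
  | succ n ih => rw [pow_succ, mul_smul, h, ih]

/-- If `3 z = 0` then the average is the value. -/
theorem sum_same (g : G) (b : ℤ_[3]) (z : D) (n : ℕ) (h3 : 3 • z = 0) :
    ∑ j ∈ Finset.range (3 ^ n), g.F b (z + j • (3 • z)) = g.F b z := by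
  have : ∀ j ∈ Finset.range (3 ^ n), g.F b (z + j • (3 • z)) = g.F b z := by
    intro j _
    rw [h3, smul_zero, add_zero]
  rw [Finset.sum_congr rfl this, Finset.sum_const, Finset.card_range, three_pow_nsmul]

/-- Closed invariant subgroups of `N`. -/
structure Good (E : Set G) : Prop where
  isN : ∀ g ∈ E, IsN g
  one : (1 : G) ∈ E
  mul : ∀ g ∈ E, ∀ h ∈ E, g * h ∈ E
  closed : ∀ g, IsN g → (∀ P : Finset (ℤ_[3] × D), ∃ h ∈ E, ∀ p ∈ P, h.F p.1 p.2 = g.F p.1 p.2) →
    g ∈ E
  vel : ∀ g ∈ E, ∀ u, (vel u)⁻¹ * g * vel u ∈ E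
  cel : ∀ g ∈ E, ∀ j, (cel (cj j))⁻¹ * g * cel (cj j) ∈ E

theorem Good.avg {E : Set G} (hE : Good E) {g : G} (hg : g ∈ E) (N : ℕ) :
    ∃ h ∈ E, ∀ b z, h.F b z = ∑ j ∈ Finset.range N, g.F b (z + j • (3 • z)) := by
  induction N with
  | zero => exact ⟨1, hE.one, fun b z => by simp⟩
  | succ N ih =>
    obtain ⟨h, hh, hF⟩ := ih
    refine ⟨h * ((G.cel (cj N))⁻¹ * g * G.cel (cj N)), hE.mul _ hh _ (hE.cel g hg N), fun b z => ?_⟩
    rw [((hE.isN g hg).conj _).mul_F', hF, (hE.isN g hg).conj_F, cel_act, cj_smul,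
      Finset.sum_range_succ]

theorem psi_kill (w : ℤ_[3]) (y : D) : psi w (-(w • y), y) = 0 := by
  rw [psi_apply]; simp

theorem psi_first (b : ℤ_[3]) (y : D) : psi b (y, 0) = y := by
  rw [psi_apply]; simp

/-- Step (i): kill finitely many coordinates. -/
theorem Good.kill {E : Set G} (hE : Good E) {g : G} (hg : g ∈ E) {b : ℤ_[3]}
    (hb : ∃ z, g.F b z ≠ 0) (J : Finset ℤ_[3]) (hJ : b ∉ J) :
    ∃ h ∈ E, (∀ w ∈ J, ∀ z, h.F w z = 0) ∧ ∃ z, h.F b z ≠ 0 := by
  classical
  induction J using Finset.induction_on with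
  | empty => exact ⟨g, hg, fun w hw => absurd hw (Finset.notMem_empty w), hb⟩
  | insert w J hw ih =>
    rw [Finset.mem_insert, not_or] at hJ
    obtain ⟨h, hh, hJ0, hb0⟩ := ih hJ.2
    have hne : b - w ≠ 0 := sub_ne_zero.2 hJ.1
    obtain ⟨y, hy⟩ := exists_smul_eq_t hne
    have hpb : psi b (-(w • y), y) = t := by
      rw [psi_apply, ← hy, sub_smul]
      show -(w • y) + b • y = b • y - w • y
      rw [neg_add_eq_sub]
    have hN := hE.isN h hh
    refine ⟨((G.vel (-(w • y), y))⁻¹ * h * G.vel (-(w • y), y)) * h,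
      hE.mul _ (hE.vel h hh _) _ hh, ?_, ?_⟩
    · intro w' hw' z
      rw [hN.mul_F', hN.conj_F, vel_act]
      rcases Finset.mem_insert.1 hw' with rfl | hw'
      · rw [psi_kill, add_zero]; exact CharTwo.add_self_eq_zero _
      · rw [hJ0 w' hw', hJ0 w' hw', add_zero]
    · by_contra hcon
      push Not at hcon
      obtain ⟨z, hz⟩ := hb0
      apply hz
      have e : ∀ z, h.F b (z + t) + h.F b z = 0 := by
        intro z
        have := hcon z
        rw [hN.mul_F', hN.conj_F, vel_act, hpb] at this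
        exact this
      have e1 := e z
      have e2 := e (z + t)
      have e3 := h.hN b z t t_ne t_three
      generalize h.F b z = p at *
      generalize h.F b (z + t) = q at *
      generalize h.F b (z + t + t) = r at *
      revert p q r
      decide

/-- Step (ii)-(iv). -/
theorem Good.pattern {E : Set G} (hE : Good E) {g : G} (hg : g ∈ E) {b : ℤ_[3]}
    (hb : ∃ z, g.F b z ≠ 0) (J : Finset ℤ_[3]) (hJ : b ∉ J) (n : ℕ) :
    ∃ h ∈ E, (∀ w ∈ J, ∀ z, h.F w z = 0) ∧ ∀ z, (3 ^ n : ℕ) • z = 0 → h.F b z = gfun 0 z := by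
  classical
  obtain ⟨h0, hh0, h0J, z0, hz0⟩ := hE.kill hg hb J hJ
  -- translate
  set h1 := (G.vel (z0, 0))⁻¹ * h0 * G.vel (z0, 0) with hh1
  have h1E : h1 ∈ E := hE.vel h0 hh0 _
  have h1F : ∀ b z, h1.F b z = h0.F b (z + psi b (z0, 0)) := by
    intro b z
    rw [hh1, (hE.isN h0 hh0).conj_F, vel_act]
  have h10 : h1.F b 0 = 1 := by
    rw [h1F, psi_first, zero_add]
    revert hz0
    generalize h0.F b z0 = x
    revert x; decide
  -- average
  obtain ⟨h2, h2E, h2F⟩ := hE.avg h1E (3 ^ n)
  have h2J : ∀ w ∈ J, ∀ z, h2.F w z = 0 := by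
    intro w hw z
    rw [h2F]
    apply Finset.sum_eq_zero
    intro j _
    rw [h1F, h0J w hw]
  have h2a : ∀ z, (3 ^ n : ℕ) • z = 0 → 3 • z ≠ 0 → h2.F b z = 0 := by
    intro z hz h3
    rw [h2F, sum_zero h1 b z n hz h3]
  have h2b : ∀ z, 3 • z = 0 → h2.F b z = h1.F b z := by
    intro z h3
    rw [h2F, sum_same h1 b z n h3]
  have ht3 : 3 • t = 0 := by rw [three_nsmul_eq, t_three]
  have htt3 : 3 • (t + t) = 0 := by rw [smul_add, ht3, add_zero]
  have tt_ne : t + t ≠ 0 := by
    intro h
    have := t_three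
    rw [h, zero_add] at this
    exact t_ne this
  have tt_ne_t : t + t ≠ t := by
    intro h
    exact t_ne (add_eq_right.1 h)
  have hs := h1.hN b 0 t t_ne t_three
  rw [zero_add, h10] at hs
  by_cases ha : h1.F b t = 1
  · refine ⟨h2, h2E, h2J, fun z hz => ?_⟩
    by_cases h3 : 3 • z = 0
    · rw [h2b z h3]
      by_cases hz0' : z = 0
      · subst hz0'
        rw [h10]; unfold gfun
        rw [if_pos rfl, if_neg, add_zero]
        rw [zero_add]; exact fun h => t_ne h.symm
      · rw [three_nsmul_eq] at h3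
        rcases order_three hz0' h3 with rfl | rfl
        · rw [ha]; unfold gfun
          rw [if_neg t_ne, if_pos (by rw [zero_add]), zero_add]
        · rw [ha] at hs
          have : h1.F b (t + t) = 0 := by
            revert hs; generalize h1.F b (t + t) = x; revert x; decide
          rw [this]; unfold gfun
          rw [if_neg tt_ne, if_neg (by rw [zero_add]; exact tt_ne_t), add_zero]
    · rw [h2a z hz h3]; unfold gfun
      rw [if_neg, if_neg, add_zero]
      · rw [zero_add]; rintro rfl; exact h3 ht3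
      · rintro rfl; exact h3 (smul_zero _)
  · have ha0 : h1.F b t = 0 := by
      revert ha; generalize h1.F b t = x; revert x; decide
    have hs2 : h1.F b (t + t) = 1 := by
      rw [ha0] at hs
      revert hs; generalize h1.F b (t + t) = x; revert x; decide
    refine ⟨(G.vel (t + t, 0))⁻¹ * h2 * G.vel (t + t, 0), hE.vel _ h2E _, ?_, ?_⟩
    · intro w hw z
      rw [(hE.isN h2 h2E).conj_F, h2J w hw]
    · intro z hz
      rw [(hE.isN h2 h2E).conj_F, vel_act, psi_first]
      by_cases h3 : 3 • z = 0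
      · have h3' : 3 • (z + (t + t)) = 0 := by rw [smul_add, h3, htt3, add_zero]
        rw [h2b _ h3']
        by_cases hz0' : z = 0
        · subst hz0'
          rw [zero_add, hs2]; unfold gfun
          rw [if_pos rfl, if_neg, add_zero]
          rw [zero_add]; exact fun h => t_ne h.symm
        · rw [three_nsmul_eq] at h3
          rcases order_three hz0' h3 with rfl | rfl
          · rw [← add_assoc, t_three, h10]; unfold gfun
            rw [if_neg t_ne, if_pos (by rw [zero_add]), zero_add]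
          · have : t + t + (t + t) = t := by
              have : t + t + (t + t) = t + t + t + t := by abel
              rw [this, t_three, zero_add]
            rw [this, ha0]; unfold gfun
            rw [if_neg tt_ne, if_neg (by rw [zero_add]; exact tt_ne_t), add_zero]
      · have h3' : 3 • (z + (t + t)) ≠ 0 := by rw [smul_add, htt3, add_zero]; exact h3
        by_cases hn : n = 0
        · subst hn
          rw [pow_zero, one_smul] at hz
          exact absurd (by rw [hz, smul_zero]) h3
        · have hz' : (3 ^ n : ℕ) • (z + (t + t)) = 0 := by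
            obtain ⟨m, rfl⟩ := Nat.exists_eq_succ_of_ne_zero hn
            rw [smul_add, hz, zero_add, pow_succ, mul_smul, htt3, smul_zero]
          rw [h2a _ hz' h3']; unfold gfun
          rw [if_neg, if_neg, add_zero]
          · rw [zero_add]; rintro rfl; exact h3 ht3
          · rintro rfl; exact h3 (smul_zero _)

theorem exists_bound (P : Finset (ℤ_[3] × D)) : ∃ n : ℕ, ∀ p ∈ P, (3 ^ n : ℕ) • p.2 = 0 := by
  classical
  induction P using Finset.induction_on with
  | empty => exact ⟨0, fun p hp => absurd hp (Finset.notMem_empty p)⟩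
  | insert q P hq ih =>
    obtain ⟨n, hn⟩ := ih
    obtain ⟨m, hm⟩ := D_tors q.2
    refine ⟨n + m, fun p hp => ?_⟩
    rcases Finset.mem_insert.1 hp with rfl | hp
    · rw [pow_add, mul_smul, hm, smul_zero]
    · rw [pow_add, mul_comm, mul_smul, hn p hp, smul_zero]

/-- Step (v). -/
theorem Good.gz_zero {E : Set G} (hE : Good E) {g : G} (hg : g ∈ E) {b : ℤ_[3]}
    (hb : ∃ z, g.F b z ≠ 0) : gz b 0 ∈ E := by
  classical
  apply hE.closed _ (gz_isN b 0)
  intro P
  obtain ⟨n, hn⟩ := exists_bound P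
  obtain ⟨h, hh, hJ, hF⟩ := hE.pattern hg hb ((P.image Prod.fst).erase b)
    (Finset.notMem_erase b _) n
  refine ⟨h, hh, fun p hp => ?_⟩
  by_cases hpb : p.1 = b
  · rw [hpb, gz_F_same, hF _ (hn p hp)]
  · rw [gz_F_ne hpb, hJ]
    exact Finset.mem_erase.2 ⟨hpb, Finset.mem_image_of_mem _ hp⟩

/-- Step (vi). -/
theorem Good.gz_mem {E : Set G} (hE : Good E) {g : G} (hg : g ∈ E) {b : ℤ_[3]}
    (hb : ∃ z, g.F b z ≠ 0) (z : D) : gz b z ∈ E := by
  classical
  have h0 := hE.gz_zero hg hb
  have h1 := hE.vel _ h0 (-z, 0)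
  have : (G.vel (-z, 0))⁻¹ * gz b 0 * G.vel (-z, 0) = gz b z := by
    apply IsN.ext ((gz_isN b 0).conj _) (gz_isN b z)
    intro b' y
    rw [(gz_isN b 0).conj_F, vel_act, psi_first]
    by_cases h : b' = b
    · subst h
      rw [gz_F_same, gz_F_same]
      unfold gfun
      have e1 : y + -z = 0 ↔ y = z := by rw [add_neg_eq_zero]
      have e2 : y + -z = 0 + t ↔ y = z + t := by
        rw [zero_add, ← sub_eq_add_neg, sub_eq_iff_eq_add, add_comm]
      simp only [e1, e2]
    · rw [gz_F_ne h, gz_F_ne h]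
  rwa [this] at h1

/-- **Lemma L1.** A closed invariant subgroup of `N` containing an element with a nonzero
`b`-coordinate contains every element supported on `b`. -/
theorem Good.single {E : Set G} (hE : Good E) {g : G} (hg : g ∈ E) {b : ℤ_[3]}
    (hb : ∃ z, g.F b z ≠ 0) (n : G) (hn : IsN n) (hnb : ∀ b', b' ≠ b → ∀ z, n.F b' z = 0) :
    n ∈ E := by
  classical
  have key : ∀ Z : Finset D, ∃ h ∈ E, (∀ b', b' ≠ b → ∀ y, h.F b' y = 0) ∧
      ∀ y, h.F b y = ∑ z ∈ Z, n.F b (z - t) * gfun z y := by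
    intro Z
    induction Z using Finset.induction_on with
    | empty => exact ⟨1, hE.one, fun b' _ y => rfl, fun y => by simp⟩
    | insert z Z hz ih =>
      obtain ⟨h, hh, h1, h2⟩ := ih
      rcases (by generalize n.F b (z - t) = x; revert x; decide :
        n.F b (z - t) = 0 ∨ n.F b (z - t) = 1) with h0 | h0
      · refine ⟨h, hh, h1, fun y => ?_⟩
        rw [Finset.sum_insert hz, h0, zero_mul, zero_add, h2]
      · refine ⟨h * gz b z, hE.mul _ hh _ (hE.gz_mem hg hb z), fun b' hb' y => ?_, fun y => ?_⟩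
        · rw [(gz_isN b z).mul_F', h1 b' hb', gz_F_ne hb', add_zero]
        · rw [(gz_isN b z).mul_F', gz_F_same, h2, Finset.sum_insert hz, h0, one_mul, add_comm]
  apply hE.closed n hn
  intro P
  obtain ⟨h, hh, h1, h2⟩ := key ((P.image Prod.snd) ∪ (P.image fun p => p.2 - t))
  refine ⟨h, hh, fun p hp => ?_⟩
  by_cases hpb : p.1 = b
  · rw [hpb, h2]
    have hy : p.2 ∈ (P.image Prod.snd) ∪ (P.image fun p => p.2 - t) :=
      Finset.mem_union_left _ (Finset.mem_image_of_mem _ hp)
    have hyt : p.2 - t ∈ (P.image Prod.snd) ∪ (P.image fun p => p.2 - t) :=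
      Finset.mem_union_right _ (Finset.mem_image_of_mem (fun p : ℤ_[3] × D => p.2 - t) hp)
    have e : ∀ z, n.F b (z - t) * gfun z p.2 =
        (if z = p.2 then n.F b (p.2 - t) else 0) +
          (if z = p.2 - t then n.F b (p.2 - t - t) else 0) := by
      intro z
      unfold gfun
      have e1 : p.2 = z ↔ z = p.2 := eq_comm
      have e2 : p.2 = z + t ↔ z = p.2 - t := by rw [eq_sub_iff_add_eq, eq_comm]
      simp only [e1, e2, mul_add, mul_ite, mul_one, mul_zero]
      congr 1
      · by_cases h : z = p.2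
        · rw [if_pos h, if_pos h, h]
        · rw [if_neg h, if_neg h]
      · by_cases h : z = p.2 - t
        · rw [if_pos h, if_pos h, h]
        · rw [if_neg h, if_neg h]
    rw [Finset.sum_congr rfl fun z _ => e z, Finset.sum_add_distrib, Finset.sum_ite_eq',
      Finset.sum_ite_eq', if_pos hy, if_pos hyt]
    have hs := n.hN b (p.2 - t - t) t t_ne t_three
    have a1 : p.2 - t - t + t = p.2 - t := by abel
    have a2 : p.2 - t + t = p.2 := by abel
    rw [a1, a2] at hs
    have : ∀ x y z : ZMod 2, x + y + z = 0 → y + x = z := by decide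
    exact this _ _ _ hs
  · rw [h1 _ hpb, hnb _ hpb]

end G

end Pool.Agent.Y444.TM
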