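import Pool.Agent.Y444.TM.Soc

set_option autoImplicit false
set_option linter.unusedSectionVars false

/-! Every continuous surjective homomorphism from `G` onto a Hausdorff group is open. -/

open Filter Topology

namespace Pool.Agent.Y444.TM

instance D_countable : Countable D := by
  have h : (Set.univ : Set D).Countable := by
    have : (Set.univ : Set D) ⊆ ⋃ n : ℕ, {d : D | (3 ^ n : ℕ) • d = 0} := by
      intro d _
      obtain ⟨n, hn⟩ := D_tors d
      exact Set.mem_iUnion.2 ⟨n, hn⟩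
    exact (Set.countable_iUnion fun n => (D_finite n).countable).mono this
  exact Set.countable_univ_iff.1 h

namespace G

theorem IsN.Th_iff {g h : G} (hg : IsN g) (hh : IsN h) (p : ℤ_[3] × D) :
    Th h p = Th g p ↔ h.F p.1 p.2 = g.F p.1 p.2 := by
  rw [Th_eq_iff, hg.act, hh.act]
  simp

variable {L : Type} [Group L] [TopologicalSpace L] [IsTopologicalGroup L] [T2Space L]

/-- Pull back of an open condition. -/
theorem exists_P (f : G →* L) (hf : Continuous f) (g : G) (O : Set L) (hO : O ∈ 𝓝 (f g)) :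
    ∃ P : Finset (ℤ_[3] × D), ∀ h : G, (∀ p ∈ P, Th h p = Th g p) → f h ∈ O := by
  have := (hf.continuousAt (x := g)) hO
  rw [Filter.mem_map, mem_nhds_iff] at this
  exact this

theorem closed_pts (f : G →* L) (hf : Continuous f) (g : G) (K : Set L) (hK : IsClosed K)
    (h : ∀ P : Finset (ℤ_[3] × D), ∃ h : G, f h ∈ K ∧ ∀ p ∈ P, Th h p = Th g p) : f g ∈ K := by
  by_contra hc
  obtain ⟨P, hP⟩ := exists_P f hf g Kᶜ (hK.isOpen_compl.mem_nhds hc)
  obtain ⟨x, hx, hxP⟩ := h P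
  exact hP x hxP hx

/-- The coordinates killed by `f`. -/
def S (f : G →* L) : Set ℤ_[3] := {b | ∀ n : G, IsN n → (∀ b', b' ≠ b → ∀ z, n.F b' z = 0) → f n = 1}

theorem res_fin (f : G →* L) (g : G) (B : Finset ℤ_[3]) (hB : ∀ b ∈ B, b ∈ S f) :
    f (res (B : Set ℤ_[3]) g) = 1 := by
  classical
  induction B using Finset.induction_on with
  | empty =>
    have : res ((∅ : Finset ℤ_[3]) : Set ℤ_[3]) g = 1 := by
      apply IsN.ext (res_isN _ _) IsN.one
      intro b z
      rw [res_F_notMem (by simp), one_F]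
    rw [this, map_one]
  | insert b B hb ih =>
    have h1 : res ((insert b B : Finset ℤ_[3]) : Set ℤ_[3]) g =
        res {b} g * res (B : Set ℤ_[3]) g := by
      apply IsN.ext (res_isN _ _) ((res_isN _ _).mul (res_isN _ _))
      intro b' z
      rw [(res_isN _ _).mul_F']
      by_cases h : b' = b
      · subst h
        rw [res_F_mem (by simp), res_F_mem (by simp), res_F_notMem (by simpa using hb), add_zero]
      · by_cases h' : b' ∈ B
        · rw [res_F_mem (by simp [h']), res_F_notMem (by simpa using h), res_F_mem (by simpa using h'),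
            zero_add]
        · rw [res_F_notMem (by simp [h, h']), res_F_notMem (by simpa using h),
            res_F_notMem (by simpa using h'), add_zero]
    rw [h1, map_mul, ih fun b' hb' => hB b' (Finset.mem_insert_of_mem hb'), mul_one]
    apply hB b (Finset.mem_insert_self _ _) _ (res_isN _ _)
    intro b' hb' z
    exact res_F_notMem (by simpa using hb') g z

theorem res_S (f : G →* L) (hf : Continuous f) (g : G) : f (res (S f) g) = 1 := by
  classical
  apply closed_pts f hf (res (S f) g) {1} isClosed_singleton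
  intro P
  refine ⟨res (((P.image Prod.fst).filter (· ∈ S f) : Finset ℤ_[3]) : Set ℤ_[3]) g,
    res_fin f g _ (fun b hb => (Finset.mem_filter.1 hb).2), fun p hp => ?_⟩
  rw [(res_isN _ _).Th_iff (res_isN _ _)]
  by_cases h : p.1 ∈ S f
  · rw [res_F_mem h, res_F_mem]
    exact Finset.mem_coe.2 (Finset.mem_filter.2 ⟨Finset.mem_image_of_mem _ hp, h⟩)
  · rw [res_F_notMem h, res_F_notMem]
    intro hc
    exact h (Finset.mem_filter.1 (Finset.mem_coe.1 hc)).2

theorem res_univ_eq (A : Set ℤ_[3]) (g : G) : res Set.univ g = res A g * res Aᶜ g := by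
  apply IsN.ext (res_isN _ _) ((res_isN _ _).mul (res_isN _ _))
  intro b z
  rw [(res_isN _ _).mul_F', res_F_mem (Set.mem_univ _)]
  by_cases h : b ∈ A
  · rw [res_F_mem h, res_F_notMem (Set.notMem_compl_iff.2 h), add_zero]
  · rw [res_F_notMem h, res_F_mem (show b ∈ Aᶜ from h), zero_add]

theorem f_res_univ (f : G →* L) (hf : Continuous f) (g : G) :
    f (res Set.univ g) = f (res (S f)ᶜ g) := by
  rw [res_univ_eq (S f) g, map_mul, res_S f hf, one_mul]

/-- **Lemma P.** -/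
theorem lemmaP (f : G →* L) (hf : Continuous f) (W : Set L) (hW : W ∈ 𝓝 (1 : L)) :
    ∃ (n : ℕ) (B : Finset ℤ_[3]), (∀ b ∈ B, b ∉ S f) ∧ ∀ g : G,
      (∀ b ∈ B, ∀ z, (3 ^ n : ℕ) • z = 0 → g.F b z = 0) → f (res Set.univ g) ∈ W := by
  classical
  have hW' : W ∈ 𝓝 (f 1) := by rwa [map_one]
  obtain ⟨P, hP⟩ := exists_P f hf 1 W hW'
  obtain ⟨n, hn⟩ := exists_bound P
  refine ⟨n, (P.image Prod.fst).filter (· ∉ S f), fun b hb => (Finset.mem_filter.1 hb).2, ?_⟩
  intro g hg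
  rw [f_res_univ f hf]
  apply hP
  intro p hp
  rw [IsN.one.Th_iff (res_isN _ _), one_F]
  by_cases h : p.1 ∈ S f
  · exact res_F_notMem (Set.notMem_compl_iff.2 h) g _
  · rw [res_F_mem (show p.1 ∈ (S f)ᶜ from h)]
    exact hg _ (Finset.mem_filter.2 ⟨Finset.mem_image_of_mem _ hp, h⟩) _ (hn p hp)

/-- One step in the construction of a closed invariant subgroup. -/
theorem next (f : G →* L) (k : ℕ → G) (n : ℕ) (U : {U : Set L // U ∈ 𝓝 (1 : L)}) :
    ∃ U' : {U : Set L // U ∈ 𝓝 (1 : L)}, IsClosed U'.1 ∧ U'.1 ⊆ U.1 ∧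
      (∀ x ∈ U'.1, ∀ y ∈ U'.1, x * y⁻¹ ∈ U.1) ∧
      ∀ j ≤ n, ∀ x ∈ U'.1, (f (k j))⁻¹ * x * f (k j) ∈ U.1 := by
  obtain ⟨V1, hV1, hV1'⟩ := exists_nhds_split_inv U.2
  have h2 : (⋂ j ∈ {j : ℕ | j ≤ n}, {x : L | (f (k j))⁻¹ * x * f (k j) ∈ U.1}) ∈ 𝓝 (1 : L) := by
    rw [Filter.biInter_mem (Set.finite_le_nat n)]
    intro j _
    have hc : Continuous fun x : L => (f (k j))⁻¹ * x * f (k j) := by fun_prop
    have := hc.continuousAt (x := (1 : L))
    apply this
    show U.1 ∈ 𝓝 ((f (k j))⁻¹ * 1 * f (k j))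
    rw [mul_one, inv_mul_cancel]
    exact U.2
  obtain ⟨W, hW, hWc, hWs⟩ := exists_mem_nhds_isClosed_subset (inter_mem (inter_mem U.2 hV1) h2)
  refine ⟨⟨W, hW⟩, hWc, fun x hx => (hWs hx).1.1, fun x hx y hy => ?_, fun j hj x hx => ?_⟩
  · have := hV1' x (hWs hx).1.2 y (hWs hy).1.2
    rwa [div_eq_mul_inv] at this
  · have := (hWs hx).2
    rw [Set.mem_iInter₂] at this
    exact this j hj

/-- **Step 1.** -/
theorem step1 (f : G →* L) (hf : Continuous f) {b : ℤ_[3]} (hb : b ∉ S f) (Z : Finset D) :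
    ∃ W ∈ 𝓝 (1 : L), ∀ g : G, IsN g → f g ∈ W → ∀ z ∈ Z, g.F b z = 0 := by
  classical
  by_contra hcon
  push Not at hcon
  have hb' : ∃ n : G, IsN n ∧ (∀ b', b' ≠ b → ∀ z, n.F b' z = 0) ∧ f n ≠ 1 := by
    by_contra h
    push Not at h
    exact hb fun n hn hn' => h n hn hn'
  obtain ⟨n0, hn0, hn0b, hfn0⟩ := hb'
  -- the countable set of conjugating elements
  have hKc : (Set.range G.vel ∪ Set.range (fun j => G.cel (cj j))).Countable :=
    (Set.countable_range _).union (Set.countable_range _)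
  obtain ⟨k, hk⟩ := hKc.exists_eq_range ⟨_, Or.inl ⟨0, rfl⟩⟩
  choose nx hnx1 hnx2 hnx3 hnx4 using next f k
  have hU0 : {x : L | x ≠ f n0} ∈ 𝓝 (1 : L) := isOpen_ne.mem_nhds (Ne.symm hfn0)
  let U : ℕ → {U : Set L // U ∈ 𝓝 (1 : L)} := fun n =>
    Nat.rec ⟨{x : L | x ≠ f n0}, hU0⟩ (fun n V => nx n V) n
  have hUs : ∀ n, U (n + 1) = nx n (U n) := fun n => rfl
  have hUmono : ∀ n m, n ≤ m → (U m).1 ⊆ (U n).1 := by
    intro n m hnm
    induction m, hnm using Nat.le_induction with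
    | base => exact subset_rfl
    | succ m _ ih =>
      rw [hUs]
      exact (hnx2 m (U m)).trans ih
  let E : Set G := {g | IsN g ∧ ∀ n, f g ∈ (U n).1}
  have hE_closed_aux : ∀ g, (∀ m, f g ∈ (U (m + 1)).1) → ∀ n, f g ∈ (U n).1 :=
    fun g h n => hUmono n (n + 1) (Nat.le_succ n) (h n)
  have hconj : ∀ g ∈ E, ∀ j, (k j)⁻¹ * g * k j ∈ E := by
    intro g hg j
    refine ⟨hg.1.conj _, fun n => ?_⟩
    have h1 : f ((k j)⁻¹ * g * k j) ∈ (U (max n j)).1 := by
      rw [map_mul, map_mul, map_inv]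
      have h2 := hg.2 (max n j + 1)
      rw [hUs] at h2
      exact hnx4 (max n j) (U (max n j)) j (le_max_right _ _) _ h2
    exact hUmono n _ (le_max_left _ _) h1
  have hGood : Good E :=
    { isN := fun g hg => hg.1
      one := ⟨IsN.one, fun n => by rw [map_one]; exact mem_of_mem_nhds (U n).2⟩
      mul := by
        intro g hg h hh
        refine ⟨hg.1.mul hh.1, fun n => ?_⟩
        have h1 := hg.2 (n + 1)
        have h2 := hh.2 (n + 1)
        rw [hUs] at h1 h2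
        have h3 := hnx3 n (U n) _ h1 _ h2
        rwa [← map_inv, hh.1.inv_eq, ← map_mul] at h3
      closed := by
        intro g hg hP
        refine ⟨hg, hE_closed_aux g fun m => ?_⟩
        rw [hUs]
        apply closed_pts f hf g _ (hnx1 m (U m))
        intro P
        obtain ⟨h, hh, hhP⟩ := hP P
        refine ⟨h, ?_, fun p hp => ?_⟩
        · have := hh.2 (m + 1)
          rwa [hUs] at this
        · rw [hg.Th_iff hh.1]
          exact hhP p hp
      vel := by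
        intro g hg u
        have : G.vel u ∈ Set.range k := by rw [← hk]; exact Or.inl ⟨u, rfl⟩
        obtain ⟨j, hj⟩ := this
        rw [← hj]
        exact hconj g hg j
      cel := by
        intro g hg i
        have : G.cel (cj i) ∈ Set.range k := by rw [← hk]; exact Or.inr ⟨i, rfl⟩
        obtain ⟨j, hj⟩ := this
        rw [← hj]
        exact hconj g hg j }
  -- the sequence
  choose gs hgsN hgsU hgsZ using fun n => hcon (U n).1 (U n).2
  let x : ℕ → (ℤ_[3] × D → ZMod 2) := fun n p => (gs n).F p.1 p.2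
  obtain ⟨a, ha⟩ : ∃ a, MapClusterPt a atTop x := exists_clusterPt_of_compactSpace _
  have hap : ∀ (P : Finset (ℤ_[3] × D)) (N : ℕ), ∃ n ≥ N, ∀ p ∈ P, x n p = a p := by
    intro P N
    rw [mapClusterPt_iff_frequently] at ha
    have hs : {y : ℤ_[3] × D → ZMod 2 | ∀ p ∈ P, y p = a p} ∈ 𝓝 a := by
      have : (P : Set (ℤ_[3] × D)).pi (fun p => {a p}) ∈ 𝓝 a := by
        apply set_pi_mem_nhds P.finite_toSet
        intro p _
        exact (isOpen_discrete _).mem_nhds rfl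
      apply Filter.mem_of_superset this
      intro y hy p hp
      exact hy p hp
    obtain ⟨n, hn, hn'⟩ := (frequently_atTop.1 (ha _ hs)) N
    exact ⟨n, hn, hn'⟩
  let ginf : G :=
    { F := fun b z => a (b, z)
      v := 0
      c := 1
      hN := by
        intro b z s hs h3
        obtain ⟨n, _, hn⟩ := hap {(b, z), (b, z + s), (b, z + s + s)} 0
        rw [← hn (b, z) (by simp), ← hn (b, z + s) (by simp), ← hn (b, z + s + s) (by simp)]
        exact (gs n).hN b z s hs h3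
      hs := by
        apply (Set.countable_iUnion fun n => (gs n).hs).mono
        intro b hb
        have : ∃ z, a (b, z) ≠ 0 := by
          by_contra hc
          push Not at hc
          exact hb (funext hc)
        obtain ⟨z, hz⟩ := this
        obtain ⟨n, _, hn⟩ := hap {(b, z)} 0
        rw [Set.mem_iUnion]
        refine ⟨n, fun h0 => hz ?_⟩
        rw [← hn (b, z) (by simp)]
        exact congrFun h0 z }
  have hginfN : IsN ginf := ⟨rfl, rfl⟩
  have hginfE : ginf ∈ E := by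
    refine ⟨hginfN, hE_closed_aux _ fun m => ?_⟩
    rw [hUs]
    apply closed_pts f hf ginf _ (hnx1 m (U m))
    intro P
    obtain ⟨n, hn, hnP⟩ := hap P (m + 1)
    refine ⟨gs n, ?_, fun p hp => ?_⟩
    · have := hUmono (m + 1) n hn (hgsU n)
      rwa [hUs] at this
    · rw [hginfN.Th_iff (hgsN n)]
      exact hnP p hp
  have hginfb : ∃ z, ginf.F b z ≠ 0 := by
    obtain ⟨n, _, hn⟩ := hap (Z.image fun z => (b, z)) 0
    obtain ⟨z, hz, hz'⟩ := hgsZ n
    refine ⟨z, fun h0 => hz' ?_⟩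
    have := hn (b, z) (Finset.mem_image_of_mem _ hz)
    exact this.trans h0
  have hn0E := hGood.single hginfE hginfb n0 hn0 hn0b
  exact (hn0E.2 0) rfl

theorem gfun_cases {z y : D} (h : gfun z y = 1) : y = z ∨ y = z + t := by
  classical
  unfold gfun at h
  by_contra hc
  rw [not_or] at hc
  rw [if_neg hc.1, if_neg hc.2] at h
  revert h; decide

theorem gfun_self (z : D) : gfun z z = 1 := by
  classical
  unfold gfun
  rw [if_pos rfl, if_neg, add_zero]
  intro h
  exact t_ne (left_eq_add.1 h)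

theorem gfun_add (z : D) : gfun z (z + t) = 1 := by
  classical
  unfold gfun
  rw [if_pos rfl, if_neg, zero_add]
  intro h
  exact t_ne (add_eq_left.1 h)

theorem comm_nhds (a : L) (W : Set L) (hW : W ∈ 𝓝 (1 : L)) :
    {y : L | y⁻¹ * a * y * a⁻¹ ∈ W} ∈ 𝓝 (1 : L) := by
  have hc : Continuous fun y : L => y⁻¹ * a * y * a⁻¹ := by fun_prop
  have := hc.continuousAt (x := (1 : L))
  apply this
  show W ∈ 𝓝 ((1 : L)⁻¹ * a * 1 * a⁻¹)
  rw [inv_one, one_mul, mul_one, mul_inv_cancel]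
  exact hW

theorem comm_nhds' (a : L) (W : Set L) (hW : W ∈ 𝓝 (1 : L)) :
    {y : L | y⁻¹ * a⁻¹ * y * a ∈ W} ∈ 𝓝 (1 : L) := by
  have hc : Continuous fun y : L => y⁻¹ * a⁻¹ * y * a := by fun_prop
  have := hc.continuousAt (x := (1 : L))
  apply this
  show W ∈ 𝓝 ((1 : L)⁻¹ * a⁻¹ * 1 * a)
  rw [inv_one, one_mul, mul_one, inv_mul_cancel]
  exact hW

/-- **Step 2.** -/
theorem step2 (f : G →* L) (hf : Continuous f) {b : ℤ_[3]} (hb : b ∉ S f) (n : ℕ) :
    ∃ W ∈ 𝓝 (1 : L), ∀ g : G, f g ∈ W →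
      psi b g.v = 0 ∧ ∀ z : D, (3 ^ n : ℕ) • z = 0 → g.c • z = z := by
  classical
  set Z : Finset D := (D_finite (n + 1)).toFinset with hZ
  have hZm : ∀ z, z ∈ Z ↔ (3 ^ (n + 1) : ℕ) • z = 0 := by
    intro z
    rw [hZ, Set.Finite.mem_toFinset]
    rfl
  have ht3 : (3 ^ (n + 1) : ℕ) • t = 0 := by
    rw [pow_succ, mul_smul, three_nsmul_eq, t_three, smul_zero]
  have hZt : ∀ z ∈ Z, z + t ∈ Z := by
    intro z hz
    rw [hZm] at hz ⊢
    rw [smul_add, hz, ht3, add_zero]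
  have hZt' : ∀ z ∈ Z, z - t ∈ Z := by
    intro z hz
    rw [hZm] at hz ⊢
    rw [smul_sub, hz, ht3, sub_zero]
  obtain ⟨W1, hW1, hW1'⟩ := step1 f hf hb Z
  refine ⟨⋂ z ∈ Z, {y : L | y⁻¹ * f (gz b z) * y * (f (gz b z))⁻¹ ∈ W1}, ?_, fun g hg => ?_⟩
  · rw [Filter.biInter_finset_mem]
    intro z _
    exact comm_nhds _ _ hW1
  · rw [Set.mem_iInter₂] at hg
    have key : ∀ z ∈ Z, ∀ y ∈ Z, gfun z (g.act b y) = gfun z y := by
      intro z hz y hy
      have h1 := comm_N (gz_isN b z) g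
      have h2 : f (g⁻¹ * gz b z * g * (gz b z)⁻¹) ∈ W1 := by
        rw [map_mul, map_mul, map_mul, map_inv, map_inv]
        exact hg z hz
      have h3 := hW1' _ h1.1 h2 y hy
      rw [h1.2, gz_F_same, gz_F_same] at h3
      have h4 : ∀ x y : ZMod 2, x + y = 0 → x = y := by decide
      exact h4 _ _ h3
    have fix : ∀ z ∈ Z, g.act b (z + t) = z + t := by
      intro z hz
      have e1 := gfun_cases ((key z hz (z + t) (hZt z hz)).trans (gfun_add z))
      have e2 := gfun_cases ((key (z + t) (hZt z hz) (z + t) (hZt z hz)).trans (gfun_self _))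
      rcases e1 with e1 | e1
      · rcases e2 with e2 | e2
        · exact e2
        · exfalso
          rw [e1, add_assoc, left_eq_add] at e2
          have := t_three
          rw [e2, zero_add] at this
          exact t_ne this
      · exact e1
    have fix' : ∀ z ∈ Z, g.act b z = z := by
      intro z hz
      have := fix _ (hZt' z hz)
      rwa [sub_add_cancel] at this
    have h0 : psi b g.v = 0 := by
      have := fix' 0 ((hZm 0).2 (smul_zero _))
      unfold G.act at this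
      rwa [smul_zero, zero_add] at this
    refine ⟨h0, fun z hz => ?_⟩
    have := fix' z ((hZm z).2 (by rw [pow_succ, mul_comm, mul_smul, hz, smul_zero]))
    unfold G.act at this
    rwa [h0, add_zero] at this

/-- **Step 3.** -/
theorem step3 (f : G →* L) (hf : Continuous f) {b : ℤ_[3]} (hb : b ∉ S f) (n : ℕ) :
    ∃ W ∈ 𝓝 (1 : L), ∀ g : G, f g ∈ W → ∀ z : D, (3 ^ n : ℕ) • z = 0 → g.F b z = 0 := by
  classical
  set Z : Finset D := (D_finite (n + 1)).toFinset with hZ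
  have hZm : ∀ z, z ∈ Z ↔ (3 ^ (n + 1) : ℕ) • z = 0 := by
    intro z
    rw [hZ, Set.Finite.mem_toFinset]
    rfl
  have ht3 : (3 ^ (n + 1) : ℕ) • t = 0 := by
    rw [pow_succ, mul_smul, three_nsmul_eq, t_three, smul_zero]
  obtain ⟨W1, hW1, hW1'⟩ := step1 f hf hb Z
  obtain ⟨W2, hW2, hW2'⟩ := step2 f hf hb 1
  refine ⟨{y : L | y⁻¹ * (f (G.vel (t, 0)))⁻¹ * y * f (G.vel (t, 0)) ∈ W1} ∩ W2,
    inter_mem (comm_nhds' _ _ hW1) hW2, ?_⟩
  rintro g ⟨hg1, hg2⟩ z hz
  have hct : g.c • t = t := (hW2' g hg2).2 t (by rw [pow_one, three_nsmul_eq, t_three])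
  have hu : g.c • ((t, 0) : D × D) = (t, 0) := by
    apply Prod.ext
    · exact hct
    · exact smul_zero _
  have h1 := comm_V g (t, 0) hu
  have h2 : f (g⁻¹ * (G.vel (t, 0))⁻¹ * g * G.vel (t, 0)) ∈ W1 := by
    rw [map_mul, map_mul, map_mul, map_inv, map_inv]
    exact hg1
  have h3 := hW1' _ h1.1 h2
  have hz1 : z ∈ Z := (hZm z).2 (by rw [pow_succ, mul_comm, mul_smul, hz, smul_zero])
  have hz2 : z + t ∈ Z := by
    rw [hZm] at hz1 ⊢
    rw [smul_add, hz1, ht3, add_zero]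
  have e1 := h3 z hz1
  have e2 := h3 (z + t) hz2
  rw [h1.2, psi_first] at e1 e2
  have e3 := g.hN b z t t_ne t_three
  have key : ∀ p q r : ZMod 2, q + p = 0 → r + q = 0 → p + q + r = 0 → p = 0 := by decide
  exact key _ _ _ e1 e2 e3

theorem vel_add (u v : D × D) : G.vel (u + v) = G.vel u * G.vel v := by
  apply ext'
  · intro b z; rw [mul_F, vel_F, vel_F, vel_F, add_zero]
  · rw [mul_v, vel_v, vel_v, vel_v, vel_c, one_smul]
  · rw [mul_c, vel_c, vel_c, vel_c, one_mul]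

theorem vel_zero : G.vel 0 = 1 := by
  apply ext'
  · intro b z; rfl
  · rfl
  · rfl

/-- The elements of `V` killed by `f`. -/
noncomputable def M0 (f : G →* L) : AddSubgroup (D × D) where
  carrier := {v | f (G.vel v) = 1}
  zero_mem' := by
    show f (G.vel 0) = 1
    rw [vel_zero, map_one]
  add_mem' := by
    intro a b ha hb
    have ha' : f (G.vel a) = 1 := ha
    have hb' : f (G.vel b) = 1 := hb
    show f (G.vel (a + b)) = 1
    rw [vel_add, map_mul, ha', hb', one_mul]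
  neg_mem' := by
    intro a ha
    have ha' : f (G.vel a) = 1 := ha
    show f (G.vel (-a)) = 1
    have : f (G.vel (-a) * G.vel a) = 1 := by
      rw [← vel_add, neg_add_cancel, vel_zero, map_one]
    rwa [map_mul, ha', mul_one] at this

theorem mem_M0 (f : G →* L) {v : D × D} : v ∈ M0 f ↔ f (G.vel v) = 1 := Iff.rfl

theorem cel_conj_vel (c : ℤ_[3]ˣ) (v : D × D) :
    G.cel c * G.vel v * (G.cel c)⁻¹ = G.vel (c • v) := by
  rw [mul_inv_eq_iff_eq_mul]
  apply ext'
  · intro b z; rw [mul_F, mul_F, cel_F, vel_F, vel_F, cel_F]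
  · rw [mul_v, mul_v, cel_v, vel_v, cel_c, vel_v, vel_c, smul_zero, add_zero, zero_add]
  · rw [mul_c, mul_c, cel_c, vel_c, vel_c, mul_one, one_mul]

theorem M0_smul (f : G →* L) {v : D × D} (hv : v ∈ M0 f) (c : ℤ_[3]ˣ) : c • v ∈ M0 f := by
  rw [mem_M0] at hv ⊢
  rw [← cel_conj_vel, map_mul, map_mul, hv, mul_one, map_inv, mul_inv_cancel]

theorem M0_smul_iff (f : G →* L) {v : D × D} (c : ℤ_[3]ˣ) : c • v ∈ M0 f ↔ v ∈ M0 f := by
  constructor
  · intro h
    have := M0_smul f h c⁻¹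
    rwa [inv_smul_smul] at this
  · intro h; exact M0_smul f h c

theorem decomp (g : G) : g = G.cel g.c * (G.vel (g.c⁻¹ • g.v) * res Set.univ g) := by
  apply ext'
  · intro b z
    rw [mul_F, mul_F, cel_F, vel_F, res_F_mem (Set.mem_univ _), zero_add, zero_add]
  · rw [mul_v, mul_v, cel_v, cel_c, vel_v, (res_isN _ _).1, smul_zero, add_zero, zero_add,
      smul_inv_smul]
  · rw [mul_c, mul_c, cel_c, vel_c, (res_isN _ _).2, mul_one, mul_one]

/-- **Step 4, first half.** -/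
theorem step4a (f : G →* L) (hf : Continuous f) {u : D × D} (hu : u ∉ M0 f) :
    ∃ W ∈ 𝓝 (1 : L), ∀ g : G, g.v = u → g.c = 1 → f g ∉ W := by
  classical
  by_contra hcon
  push Not at hcon
  apply hu
  rw [mem_M0]
  by_contra hne
  have hO : {x : L | x ≠ f (G.vel u)} ∈ 𝓝 (1 : L) := isOpen_ne.mem_nhds (Ne.symm hne)
  obtain ⟨W', hW', hW''⟩ := exists_nhds_split_inv hO
  obtain ⟨n, B, hB, hP⟩ := lemmaP f hf W' hW'
  have h3 : ∀ b : ℤ_[3], ∃ W ∈ 𝓝 (1 : L), b ∈ B → ∀ g : G, f g ∈ W →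
      ∀ z : D, (3 ^ n : ℕ) • z = 0 → g.F b z = 0 := by
    intro b
    by_cases hb : b ∈ B
    · obtain ⟨W, hW, hW2⟩ := step3 f hf (hB b hb) n
      exact ⟨W, hW, fun _ => hW2⟩
    · exact ⟨Set.univ, univ_mem, fun h => absurd h hb⟩
  choose Wb hWb hWb' using h3
  have hW3 : W' ∩ (⋂ b ∈ B, Wb b) ∈ 𝓝 (1 : L) := by
    apply inter_mem hW'
    rw [Filter.biInter_finset_mem]
    intro b _
    exact hWb b
  obtain ⟨g, hgv, hgc, hg⟩ := hcon _ hW3
  have hg1 := hg.1
  have hg2 := hg.2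
  rw [Set.mem_iInter₂] at hg2
  have hr : f (res Set.univ g) ∈ W' := by
    apply hP
    intro b hb z hz
    exact hWb' b hb g (hg2 b hb) z hz
  have hgd : g = G.vel u * res Set.univ g := by
    apply ext'
    · intro b z
      rw [mul_F, vel_F, res_F_mem (Set.mem_univ _), zero_add]
    · rw [mul_v, vel_v, vel_c, (res_isN _ _).1, smul_zero, add_zero, hgv]
    · rw [mul_c, vel_c, (res_isN _ _).2, mul_one, hgc]
  have h5 := hW'' _ hg1 _ hr
  rw [div_eq_mul_inv] at h5
  apply h5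
  have h6 : f g = f (G.vel u) * f (res Set.univ g) := by
    rw [← map_mul, ← hgd]
  rw [h6, mul_inv_cancel_right]

theorem exists_unit' (m : ℕ) (hm : ¬ 3 ∣ m) : ∃ c : ℤ_[3]ˣ, (c : ℤ_[3]) = (m : ℤ_[3]) := by
  have h : IsUnit (m : ℤ_[3]) := by
    rw [PadicInt.isUnit_iff, PadicInt.norm_natCast_eq_one_iff]
    exact (Nat.Prime.coprime_iff_not_dvd Nat.prime_three).2 hm
  obtain ⟨c, hc⟩ := h
  exact ⟨c, hc⟩

/-- multiplication is locally constant -/
theorem smul_locally (c0 : ℤ_[3]ˣ) (z : D) : ∀ᶠ c in 𝓝 c0, c • z = c0 • z := by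
  obtain ⟨n, hn⟩ := D_tors z
  have hc : Continuous fun c : ℤ_[3]ˣ => ‖(c : ℤ_[3]) - (c0 : ℤ_[3])‖ :=
    (Units.continuous_val.sub continuous_const).norm
  have h0 : (fun c : ℤ_[3]ˣ => ‖(c : ℤ_[3]) - (c0 : ℤ_[3])‖) c0 < (3 : ℝ) ^ (-(n : ℤ)) := by
    simp only [sub_self, norm_zero]
    positivity
  filter_upwards [hc.continuousAt.eventually_lt_const h0] with c hlt
  have h1 : (c : ℤ_[3]) - (c0 : ℤ_[3]) ∈ Ideal.span {(3 : ℤ_[3]) ^ n} := by
    have := (PadicInt.norm_le_pow_iff_mem_span_pow ((c : ℤ_[3]) - (c0 : ℤ_[3])) n).1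
      (by exact_mod_cast hlt.le)
    exact_mod_cast this
  rw [Ideal.mem_span_singleton] at h1
  obtain ⟨r, hr⟩ := h1
  have h2 : ((c : ℤ_[3]) - (c0 : ℤ_[3])) • z = 0 := by
    rw [hr, mul_comm, mul_smul]
    have : ((3 : ℤ_[3]) ^ n) • z = (3 ^ n : ℕ) • z := by
      rw [← Nat.cast_smul_eq_nsmul ℤ_[3]]
      push_cast
      rfl
    rw [this, hn, smul_zero]
  rw [sub_smul, sub_eq_zero] at h2
  exact h2

theorem continuous_cel : Continuous G.cel := by
  rw [continuous_induced_rng]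
  apply continuous_pi
  intro p
  rw [continuous_iff_continuousAt]
  intro c0 U hU
  rw [Filter.mem_map]
  filter_upwards [smul_locally c0 p.2] with c hc
  have : (Th ∘ G.cel) c p = (Th ∘ G.cel) c0 p := by
    show Th (G.cel c) p = Th (G.cel c0) p
    rw [Th_eq_iff, cel_act, cel_act, cel_F, cel_F]
    exact ⟨hc, rfl⟩
  show (Th ∘ G.cel) c p ∈ U
  rw [this]
  exact mem_of_mem_nhds hU

/-- **Step 4.** -/
theorem step4 (f : G →* L) (hf : Continuous f) :
    ∃ W ∈ 𝓝 (1 : L), ∀ g : G, f g ∈ W → g.v ∈ M0 f := by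
  classical
  have hfin := socle_finite (M0 f)
  have h4 : ∀ x : (D × D) ⧸ M0 f, ∃ W ∈ 𝓝 (1 : L), x ≠ 0 → ∀ g : G, g.v = x.out → g.c = 1 →
      f g ∉ W := by
    intro x
    by_cases hx : x = 0
    · exact ⟨Set.univ, univ_mem, fun h => absurd hx h⟩
    · have hu : x.out ∉ M0 f := by
        intro h
        apply hx
        rw [← QuotientAddGroup.out_eq' x]
        exact (QuotientAddGroup.eq_zero_iff _).2 h
      obtain ⟨W, hW, hW2⟩ := step4a f hf hu
      exact ⟨W, hW, fun _ => hW2⟩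
  choose Wx hWx hWx' using h4
  have hW0 : (⋂ x ∈ {x : (D × D) ⧸ M0 f | 3 • x = 0}, Wx x) ∈ 𝓝 (1 : L) := by
    rw [Filter.biInter_mem hfin]
    intro x _
    exact hWx x
  set W0 := (⋂ x ∈ {x : (D × D) ⧸ M0 f | 3 • x = 0}, Wx x) with hW0def
  have hunif : ∀ᶠ y in 𝓝 (1 : L), ∀ e ∈ (Set.univ : Set ℤ_[3]ˣ),
      y⁻¹ * (f (G.cel e))⁻¹ * y * f (G.cel e) ∈ W0 := by
    apply isCompact_univ.eventually_forall_of_forall_eventually
    intro e _
    have hc : Continuous fun q : L × ℤ_[3]ˣ =>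
        q.1⁻¹ * (f (G.cel q.2))⁻¹ * q.1 * f (G.cel q.2) := by
      have h1 : Continuous fun q : L × ℤ_[3]ˣ => f (G.cel q.2) :=
        hf.comp (continuous_cel.comp continuous_snd)
      exact ((continuous_fst.inv.mul h1.inv).mul continuous_fst).mul h1
    have := hc.continuousAt (x := ((1 : L), e))
    apply this
    show W0 ∈ 𝓝 ((1 : L)⁻¹ * (f (G.cel e))⁻¹ * 1 * f (G.cel e))
    rw [inv_one, one_mul, mul_one, inv_mul_cancel]
    exact hW0
  refine ⟨_, hunif, fun g hg => ?_⟩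
  by_contra hv
  -- choose `k` with `3 ^ k • v ∉ M0`, `3 ^ (k+1) • v ∈ M0`
  have hex : ∃ m : ℕ, (3 ^ m : ℕ) • g.v ∈ M0 f := by
    obtain ⟨m, hm⟩ := V_tors g.v
    rw [mem_Vn] at hm
    exact ⟨m, by rw [hm]; exact zero_mem _⟩
  have hm := Nat.find_spec hex
  have hmin := fun k => Nat.find_min hex (m := k)
  obtain ⟨k, hk⟩ : ∃ k, Nat.find hex = k + 1 := by
    apply Nat.exists_eq_succ_of_ne_zero
    intro h0
    rw [h0, pow_zero, one_smul] at hm
    exact hv hm
  rw [hk] at hm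
  have hk1 : (3 ^ k : ℕ) • g.v ∉ M0 f := hmin k (by omega)
  obtain ⟨e, he⟩ := exists_unit' (1 + 3 ^ k) (by
    rcases k with _ | k
    · norm_num
    · rw [pow_succ]; omega)
  have hcomm := comm_C g e⁻¹
  have hemem := hg e⁻¹ (Set.mem_univ _)
  have hfX : f (g⁻¹ * (G.cel e⁻¹)⁻¹ * g * G.cel e⁻¹) ∈ W0 := by
    rw [map_mul, map_mul, map_mul, map_inv, map_inv]
    exact hemem
  rw [inv_inv] at hcomm
  have hev : e • g.v - g.v = (3 ^ k : ℕ) • g.v := by
    have : e • g.v = (1 + 3 ^ k : ℕ) • g.v := by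
      show (e : ℤ_[3]) • g.v = _
      rw [he, Nat.cast_smul_eq_nsmul]
    rw [this, add_smul, one_smul, add_sub_cancel_left]
  rw [hev] at hcomm
  set X := g⁻¹ * (G.cel e⁻¹)⁻¹ * g * G.cel e⁻¹ with hX
  set a := g.c⁻¹ • ((3 ^ k : ℕ) • g.v) with ha
  have haM : a ∉ M0 f := by
    rw [ha, M0_smul_iff]; exact hk1
  have h3a : 3 • a ∈ M0 f := by
    have : 3 • a = g.c⁻¹ • ((3 ^ (k + 1) : ℕ) • g.v) := by
      rw [ha, smul_comm, pow_succ, mul_comm, mul_smul]
    rw [this, M0_smul_iff]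
    exact hm
  set x : (D × D) ⧸ M0 f := QuotientAddGroup.mk a with hx
  have hx0 : x ≠ 0 := fun h => haM ((QuotientAddGroup.eq_zero_iff _).1 h)
  have hx3 : x ∈ {x : (D × D) ⧸ M0 f | 3 • x = 0} := by
    show 3 • x = 0
    rw [hx, ← QuotientAddGroup.mk_nsmul]
    exact (QuotientAddGroup.eq_zero_iff _).2 h3a
  have hdiff : x.out - a ∈ M0 f := by
    have : (QuotientAddGroup.mk (x.out - a) : (D × D) ⧸ M0 f) = 0 := by
      rw [QuotientAddGroup.mk_sub, QuotientAddGroup.out_eq', sub_self]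
    exact (QuotientAddGroup.eq_zero_iff _).1 this
  have hfin2 : f (X * G.vel (x.out - a)) ∈ Wx x := by
    rw [map_mul, (mem_M0 f).1 hdiff, mul_one]
    rw [hW0def, Set.mem_iInter₂] at hfX
    exact hfX x hx3
  apply hWx' x hx0 _ _ _ hfin2
  · rw [mul_v, vel_v, hcomm.1, one_smul, hcomm.2, add_sub_cancel]
  · rw [mul_c, vel_c, hcomm.1, mul_one]

/-- **Openness.** -/
theorem main_open (f : G →* L) (hf : Continuous f) (U : Set G) (hU : U ∈ 𝓝 (1 : G)) :
    ∃ W ∈ 𝓝 (1 : L), ∀ g : G, f g ∈ W → ∃ g' ∈ U, f g' = f g := by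
  classical
  rw [mem_nhds_iff] at hU
  obtain ⟨P, hP⟩ := hU
  obtain ⟨n, hn⟩ := exists_bound P
  obtain ⟨W4, hW4, hW4'⟩ := step4 f hf
  have hdec : ∀ g : G, f g ∈ W4 → f g = f (G.cel g.c) * f (res (S f)ᶜ g) := by
    intro g hg
    have h1 := hW4' g hg
    have h2 : f (G.vel (g.c⁻¹ • g.v)) = 1 := M0_smul f h1 _
    conv_lhs => rw [decomp g]
    rw [map_mul, map_mul, h2, one_mul, f_res_univ f hf]
  by_cases hS : ∃ b0, b0 ∉ S f
  · obtain ⟨b0, hb0⟩ := hS
    obtain ⟨W2, hW2, hW2'⟩ := step2 f hf hb0 n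
    have h3 : ∀ b : ℤ_[3], ∃ W ∈ 𝓝 (1 : L), b ∉ S f → ∀ g : G, f g ∈ W →
        ∀ z : D, (3 ^ n : ℕ) • z = 0 → g.F b z = 0 := by
      intro b
      by_cases hb : b ∉ S f
      · obtain ⟨W, hW, hW2⟩ := step3 f hf hb n
        exact ⟨W, hW, fun _ => hW2⟩
      · exact ⟨Set.univ, univ_mem, fun h => absurd h hb⟩
    choose Wb hWb hWb' using h3
    refine ⟨W4 ∩ W2 ∩ ⋂ b ∈ P.image Prod.fst, Wb b, ?_, ?_⟩
    · apply inter_mem (inter_mem hW4 hW2)
      rw [Filter.biInter_finset_mem]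
      intro b _
      exact hWb b
    · rintro g ⟨⟨hg4, hg2⟩, hgb⟩
      rw [Set.mem_iInter₂] at hgb
      refine ⟨G.cel g.c * res (S f)ᶜ g, hP _ fun p hp => ?_, ?_⟩
      · rw [Th_eq_iff, act_mul, (res_isN _ _).act, cel_act, act_one, mul_F, cel_F, zero_add, one_F]
        refine ⟨(hW2' g hg2).2 _ (hn p hp), ?_⟩
        by_cases hb : p.1 ∈ S f
        · exact res_F_notMem (Set.notMem_compl_iff.2 hb) g _
        · rw [res_F_mem (show p.1 ∈ (S f)ᶜ from hb)]
          exact hWb' p.1 hb g (hgb p.1 (Finset.mem_image_of_mem _ hp)) _ (hn p hp)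
      · rw [map_mul, ← hdec g hg4]
  · push Not at hS
    have hkill : ∀ g : G, f (res (S f)ᶜ g) = 1 := by
      intro g
      have : res (S f)ᶜ g = 1 := by
        apply IsN.ext (res_isN _ _) IsN.one
        intro b z
        rw [res_F_notMem (Set.notMem_compl_iff.2 (hS b)), one_F]
      rw [this, map_one]
    set A : Set ℤ_[3]ˣ := {c | ∃ c' : ℤ_[3]ˣ, (∀ p ∈ P, c' • p.2 = p.2) ∧ f (G.cel c') = f (G.cel c)}
      with hA
    have hAo : IsOpen A := by
      rw [isOpen_iff_mem_nhds]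
      rintro c ⟨c', hc', hf'⟩
      have h1 : ∀ᶠ d in 𝓝 c, ∀ p ∈ P, (d * c⁻¹ * c') • p.2 = p.2 := by
        rw [Filter.eventually_all_finset]
        intro p hp
        filter_upwards [smul_locally c (c⁻¹ • c' • p.2)] with d hd
        rw [mul_smul, mul_smul, hd, smul_inv_smul, hc' p hp]
      filter_upwards [h1] with d hd
      refine ⟨d * c⁻¹ * c', hd, ?_⟩
      have hcm : ∀ x y : ℤ_[3]ˣ, G.cel (x * y) = G.cel x * G.cel y := by
        intro x y
        apply ext'
        · intro b z; rw [mul_F, cel_F, cel_F, cel_F, add_zero]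
        · rw [mul_v, cel_v, cel_v, cel_v, smul_zero, add_zero]
        · rw [mul_c, cel_c, cel_c, cel_c]
      have h2 : f (G.cel (d * c⁻¹ * c')) = f (G.cel (d * c⁻¹)) * f (G.cel c) := by
        rw [hcm, map_mul, hf']
      rw [h2, ← map_mul, ← hcm, inv_mul_cancel_right]
    have hK : IsCompact ((fun c => f (G.cel c)) '' Aᶜ) :=
      (hAo.isClosed_compl.isCompact).image (hf.comp continuous_cel)
    have h1K : (1 : L) ∉ (fun c => f (G.cel c)) '' Aᶜ := by
      rintro ⟨c, hc, hc1⟩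
      apply hc
      refine ⟨1, fun p _ => one_smul _ _, ?_⟩
      have : G.cel 1 = 1 := by
        apply ext'
        · intro b z; rfl
        · rfl
        · rfl
      rw [this, map_one]
      exact hc1.symm
    refine ⟨W4 ∩ ((fun c => f (G.cel c)) '' Aᶜ)ᶜ,
      inter_mem hW4 (hK.isClosed.isOpen_compl.mem_nhds h1K), ?_⟩
    rintro g ⟨hg4, hg5⟩
    have hg6 := hdec g hg4
    rw [hkill, mul_one] at hg6
    have hcA : g.c ∈ A := by
      by_contra hc
      exact hg5 ⟨g.c, hc, hg6.symm⟩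
    obtain ⟨c', hc', hf'⟩ := hcA
    refine ⟨G.cel c', hP _ fun p hp => ?_, hf'.trans hg6.symm⟩
    rw [Th_eq_iff, cel_act, act_one, cel_F, one_F]
    exact ⟨hc' p hp, rfl⟩

end G

end Pool.Agent.Y444.TM
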