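import Pool.Agent.Y444.TM.L1

set_option autoImplicit false

/-! Restrictions, commutators, and the finite socle lemma. -/

open Filter Topology

namespace Pool.Agent.Y444.TM

namespace G

open Classical in
/-- The restriction of the function part of `g` to the coordinates in `A`. -/
noncomputable def res (A : Set ℤ_[3]) (g : G) : G where
  F := fun b z => if b ∈ A then g.F b z else 0
  v := 0
  c := 1
  hN := by
    intro b z s hs h3
    by_cases h : b ∈ A
    · simp only [h, if_true]; exact g.hN b z s hs h3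
    · simp [h]
  hs := by
    apply g.hs.mono
    intro b hb h0
    apply hb
    funext z
    have : g.F b z = 0 := congrFun h0 z
    simp [this]

theorem res_isN (A : Set ℤ_[3]) (g : G) : IsN (res A g) := ⟨rfl, rfl⟩

theorem res_F_mem {A : Set ℤ_[3]} {b : ℤ_[3]} (h : b ∈ A) (g : G) (z : D) :
    (res A g).F b z = g.F b z := by
  classical
  show (if b ∈ A then g.F b z else 0) = _
  rw [if_pos h]

theorem res_F_notMem {A : Set ℤ_[3]} {b : ℤ_[3]} (h : b ∉ A) (g : G) (z : D) :
    (res A g).F b z = 0 := by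
  classical
  show (if b ∈ A then g.F b z else 0) = _
  rw [if_neg h]

/-- commutator of `g` with an element of `N`: `g⁻¹ n g n⁻¹`. -/
theorem comm_N {n : G} (hn : IsN n) (g : G) :
    IsN (g⁻¹ * n * g * n⁻¹) ∧ ∀ b z, (g⁻¹ * n * g * n⁻¹).F b z = n.F b (g.act b z) + n.F b z := by
  refine ⟨(hn.conj g).mul hn.inv, fun b z => ?_⟩
  rw [hn.inv_eq, hn.mul_F', hn.conj_F]

/-- commutator of `g` with an element `vel u` fixed by `g.c`: `g⁻¹ (vel u)⁻¹ g (vel u)`. -/
theorem comm_V (g : G) (u : D × D) (hu : g.c • u = u) :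
    IsN (g⁻¹ * (vel u)⁻¹ * g * vel u) ∧
      ∀ b z, (g⁻¹ * (vel u)⁻¹ * g * vel u).F b z = g.F b (z + psi b u) + g.F b z := by
  have hu' : g.c⁻¹ • u = u := by
    conv_lhs => rw [← hu]
    rw [inv_smul_smul]
  have hv : (g⁻¹ * (vel u)⁻¹ * g * vel u).v = 0 := by
    simp only [mul_v, mul_c, inv_v, inv_c, vel_v, vel_c, inv_one, one_smul, mul_one,
      inv_mul_cancel, smul_neg, hu']
    abel
  have hc : (g⁻¹ * (vel u)⁻¹ * g * vel u).c = 1 := by
    simp
  have hX : IsN (g⁻¹ * (vel u)⁻¹ * g * vel u) := ⟨hv, hc⟩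
  refine ⟨hX, fun b z => ?_⟩
  have h1 : g * (g⁻¹ * (vel u)⁻¹ * g * vel u) = (vel u)⁻¹ * (g * vel u) := by group
  generalize g⁻¹ * (vel u)⁻¹ * g * vel u = X at *
  have h2 := congrArg (fun x : G => x.F b z) h1
  simp only [hX.mul_F', mul_F, inv_F, vel_F, vel_act] at h2
  rw [neg_zero, zero_add, add_zero] at h2
  have h3 : ∀ a x y : ZMod 2, a + x = y → x = y + a := by decide
  exact h3 _ _ _ h2

/-- commutator of `g` with an element `cel e`: `g⁻¹ (cel e)⁻¹ g (cel e)`. -/
theorem comm_C (g : G) (e : ℤ_[3]ˣ) :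
    (g⁻¹ * (cel e)⁻¹ * g * cel e).c = 1 ∧
      (g⁻¹ * (cel e)⁻¹ * g * cel e).v = g.c⁻¹ • (e⁻¹ • g.v - g.v) := by
  constructor
  · simp only [mul_c, inv_c, cel_c]
    rw [mul_assoc (g.c⁻¹), mul_comm e⁻¹ g.c]
    group
  · simp only [mul_v, mul_c, inv_v, inv_c, cel_v, cel_c, smul_zero, neg_zero, add_zero]
    rw [smul_sub, mul_smul]
    abel

end G

/-- In a finite commutative group the kernel and the cokernel of multiplication by `3` have the
same number of elements. -/
theorem card_ker_eq_card_coker {A : Type} [AddCommGroup A] [Finite A] :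
    Nat.card (A ⧸ (nsmulAddMonoidHom (α := A) 3).range) =
      Nat.card (nsmulAddMonoidHom (α := A) 3).ker := by
  have h1 := AddSubgroup.card_eq_card_quotient_mul_card_addSubgroup
    (nsmulAddMonoidHom (α := A) 3).range
  have h2 := AddSubgroup.card_eq_card_quotient_mul_card_addSubgroup
    (nsmulAddMonoidHom (α := A) 3).ker
  have h3 : Nat.card (A ⧸ (nsmulAddMonoidHom (α := A) 3).ker) =
      Nat.card (nsmulAddMonoidHom (α := A) 3).range :=
    Nat.card_congr (QuotientAddGroup.quotientKerEquivRange _).toEquiv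
  rw [h3] at h2
  rw [h1, mul_comm] at h2
  exact Nat.eq_of_mul_eq_mul_left Nat.card_pos h2

end Pool.Agent.Y444.TM
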