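import Pool.Agent.Y444.TM.Res

set_option autoImplicit false

/-! The `3`-torsion of every quotient of `D × D` is finite. -/

namespace Pool.Agent.Y444.TM

/-- The elements of `D × D` killed by `3 ^ n`. -/
noncomputable def Vn (n : ℕ) : AddSubgroup (D × D) := (nsmulAddMonoidHom (α := D × D) (3 ^ n)).ker

theorem mem_Vn {n : ℕ} {v : D × D} : v ∈ Vn n ↔ (3 ^ n : ℕ) • v = 0 := by
  unfold Vn
  rw [AddMonoidHom.mem_ker, nsmulAddMonoidHom_apply]

instance Vn_finite (n : ℕ) : Finite (Vn n) := by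
  have h : {v : D × D | (3 ^ n : ℕ) • v = 0}.Finite := by
    apply ((D_finite n).prod (D_finite n)).subset
    intro v hv
    have hv' : (3 ^ n : ℕ) • v = 0 := hv
    exact ⟨congrArg Prod.fst hv', congrArg Prod.snd hv'⟩
  have : (Vn n : Set (D × D)) = {v : D × D | (3 ^ n : ℕ) • v = 0} := by
    ext v; exact mem_Vn
  have h2 : (Vn n : Set (D × D)).Finite := by rw [this]; exact h
  exact h2.to_subtype

theorem V_tors (v : D × D) : ∃ n, v ∈ Vn n := by
  obtain ⟨n, hn⟩ := D_tors v.1
  obtain ⟨m, hm⟩ := D_tors v.2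
  refine ⟨n + m, ?_⟩
  rw [mem_Vn]
  apply Prod.ext
  · show (3 ^ (n + m) : ℕ) • v.1 = 0
    rw [pow_add, mul_comm, mul_smul, hn, smul_zero]
  · show (3 ^ (n + m) : ℕ) • v.2 = 0
    rw [pow_add, mul_smul, hm, smul_zero]

theorem Vn_mono {n m : ℕ} (h : n ≤ m) : Vn n ≤ Vn m := by
  intro v hv
  rw [mem_Vn] at hv ⊢
  obtain ⟨k, rfl⟩ := Nat.exists_eq_add_of_le h
  rw [pow_add, mul_comm, mul_smul, hv, smul_zero]

theorem socle_finite (M : AddSubgroup (D × D)) : {x : (D × D) ⧸ M | 3 • x = 0}.Finite := by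
  classical
  by_contra hinf
  set m := Nat.card (Vn 1) with hm
  obtain ⟨T, hT, hTc⟩ := Set.Infinite.exists_subset_card_eq (Set.not_finite.1 hinf) (m + 1)
  -- all elements of `T` come from one `Vn n`
  have h1 : ∃ n, ∀ x ∈ T, x ∈ (Vn n).map (QuotientAddGroup.mk' M) := by
    clear hT hTc
    induction T using Finset.induction_on with
    | empty => exact ⟨0, fun x hx => absurd hx (Finset.notMem_empty x)⟩
    | insert y T hy ih =>
      obtain ⟨n, hn⟩ := ih
      obtain ⟨v, rfl⟩ := QuotientAddGroup.mk'_surjective M y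
      obtain ⟨k, hk⟩ := V_tors v
      refine ⟨n + k, fun x hx => ?_⟩
      rcases Finset.mem_insert.1 hx with rfl | hx
      · exact ⟨v, Vn_mono (Nat.le_add_left _ _) hk, rfl⟩
      · exact AddSubgroup.map_mono (Vn_mono (Nat.le_add_right _ _)) (hn x hx)
  obtain ⟨n, hn⟩ := h1
  set A := (Vn n).map (QuotientAddGroup.mk' M) with hA
  have : Finite A := by
    have : (A : Set ((D × D) ⧸ M)).Finite := by
      rw [hA, AddSubgroup.coe_map]
      have hf : ((Vn n : AddSubgroup (D × D)) : Set (D × D)).Finite := Set.finite_coe_iff.1 (Vn_finite n)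
      exact hf.image _
    exact this.to_subtype
  -- the cokernels
  have hsurj : Nat.card (A ⧸ (nsmulAddMonoidHom (α := A) 3).range) ≤
      Nat.card (Vn n ⧸ (nsmulAddMonoidHom (α := Vn n) 3).range) := by
    set φ : Vn n →+ A := (QuotientAddGroup.mk' M).addSubgroupMap (Vn n) with hφ
    have hφs : Function.Surjective φ := AddMonoidHom.addSubgroupMap_surjective _ _
    have hle : (nsmulAddMonoidHom (α := Vn n) 3).range ≤
        ((nsmulAddMonoidHom (α := A) 3).range).comap φ := by
      rintro _ ⟨x, rfl⟩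
      exact ⟨φ x, by rw [nsmulAddMonoidHom_apply, nsmulAddMonoidHom_apply, map_nsmul]⟩
    apply Nat.card_le_card_of_surjective (QuotientAddGroup.map _ _ φ hle)
    intro y
    obtain ⟨a, rfl⟩ := QuotientAddGroup.mk'_surjective _ y
    obtain ⟨v, rfl⟩ := hφs a
    exact ⟨QuotientAddGroup.mk v, rfl⟩
  rw [card_ker_eq_card_coker, card_ker_eq_card_coker] at hsurj
  have hle1 : Nat.card (nsmulAddMonoidHom (α := Vn n) 3).ker ≤ m := by
    apply Nat.card_le_card_of_injective
      (fun x : (nsmulAddMonoidHom (α := Vn n) 3).ker => (⟨x.1.1, by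
        rw [mem_Vn, pow_one]
        have := x.2
        rw [AddMonoidHom.mem_ker, nsmulAddMonoidHom_apply] at this
        exact congrArg Subtype.val this⟩ : Vn 1))
    intro x y hxy
    apply Subtype.ext
    apply Subtype.ext
    exact congrArg (fun w : Vn 1 => (w : D × D)) hxy
  have hle2 : m + 1 ≤ Nat.card (nsmulAddMonoidHom (α := A) 3).ker := by
    rw [← hTc, ← Nat.card_eq_finsetCard]
    apply Nat.card_le_card_of_injective
      (fun x : T => (⟨⟨x.1, hn x.1 x.2⟩, by
        rw [AddMonoidHom.mem_ker, nsmulAddMonoidHom_apply]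
        apply Subtype.ext
        exact hT x.2⟩ : (nsmulAddMonoidHom (α := A) 3).ker))
    intro x y hxy
    apply Subtype.ext
    exact congrArg (fun w : (nsmulAddMonoidHom (α := A) 3).ker => (w : A).1) hxy
  omega

end Pool.Agent.Y444.TM
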